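import Pool.Agent.Q288.KB.Ten

set_option autoImplicit false

open Finset MonoidAlgebra

namespace Pool.Agent.Q288.KB

variable {k : Type} [Field k] {G : Type} [Group G]

/-- `e` is the idempotent of a block of `kG`. -/
def IsBlock (e : MonoidAlgebra k G) : Prop :=
  IsIdempotentElem e ∧ (∀ x, x * e = e * x) ∧ e ≠ 0 ∧
    ∀ f : MonoidAlgebra k G, IsIdempotentElem f → (∀ x, x * f = f * x) → f * e = 0 ∨ f * e = e

/-- `e` is a relative trace from `D`. -/
def IsTrace (D : Subgroup G) (e : MonoidAlgebra k G) : Prop :=
  ∃ a : MonoidAlgebra k G,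
    (∀ q ∈ D, MonoidAlgebra.of k G q * a = a * MonoidAlgebra.of k G q) ∧
    e = ∑ᶠ x : G ⧸ D, MonoidAlgebra.of k G (Quotient.out x) * a *
          MonoidAlgebra.of k G (Quotient.out x)⁻¹

/-- `dim Z(kG)e`, the number of ordinary irreducible characters of the block. -/
noncomputable def numChar (e : MonoidAlgebra k G) : ℕ :=
  Module.finrank k (Submodule.map (LinearMap.mulRight k e)
    (Subalgebra.toSubmodule (Subalgebra.center k (MonoidAlgebra k G))))

/-- The order of the defect groups. -/
noncomputable def defectOrder (e : MonoidAlgebra k G) : ℕ :=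
  sInf {n : ℕ | ∃ D : Subgroup G, IsTrace D e ∧ Nat.card D = n}

/-- `Z(kG)e` has dimension at least `d` -/
def Dim (e : MonoidAlgebra k G) (d : ℕ) : Prop :=
  ∃ b : Fin d → MonoidAlgebra k G, LinearIndependent k b ∧
    ∀ j, (∀ x, x * b j = b j * x) ∧ b j * e = b j

theorem mem_center_iff (z : MonoidAlgebra k G) :
    z ∈ Subalgebra.center k (MonoidAlgebra k G) ↔ ∀ x, x * z = z * x := by
  rw [Subalgebra.mem_center_iff]

theorem dim_numChar [Finite G] {e : MonoidAlgebra k G} (he : IsBlock e) :
    Dim e (numChar e) := by
  unfold numChar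
  have hfd : FiniteDimensional k (Submodule.map (LinearMap.mulRight k e)
    (Subalgebra.toSubmodule (Subalgebra.center k (MonoidAlgebra k G)))) := inferInstance
  let B := Module.finBasis k (Submodule.map (LinearMap.mulRight k e)
    (Subalgebra.toSubmodule (Subalgebra.center k (MonoidAlgebra k G))))
  refine ⟨fun j => (B j : MonoidAlgebra k G), ?_, ?_⟩
  · exact B.linearIndependent.map' (Submodule.subtype _) (Submodule.ker_subtype _)
  · intro j
    obtain ⟨z, hz, hz2⟩ := (B j).2
    have hz3 : (B j : MonoidAlgebra k G) = z * e := hz2.symm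
    have hz4 := (mem_center_iff z).1 hz
    show (∀ x, x * (B j : MonoidAlgebra k G) = (B j : MonoidAlgebra k G) * x) ∧
      (B j : MonoidAlgebra k G) * e = (B j : MonoidAlgebra k G)
    refine ⟨?_, ?_⟩
    · intro x
      rw [hz3, ← mul_assoc, hz4, mul_assoc, he.2.1, ← mul_assoc]
    · rw [hz3, mul_assoc, he.1]

theorem dim_le [Finite G] {e : MonoidAlgebra k G} {d : ℕ} (h : Dim e d) : d ≤ numChar e := by
  obtain ⟨b, hb, hb2⟩ := h
  have hfd : FiniteDimensional k (Submodule.map (LinearMap.mulRight k e)
    (Subalgebra.toSubmodule (Subalgebra.center k (MonoidAlgebra k G)))) := inferInstance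
  have hmem : ∀ j, b j ∈ Submodule.map (LinearMap.mulRight k e)
    (Subalgebra.toSubmodule (Subalgebra.center k (MonoidAlgebra k G))) := by
    intro j
    exact ⟨b j, (mem_center_iff _).2 (hb2 j).1, (hb2 j).2⟩
  have h1 : LinearIndependent k (fun j => (⟨b j, hmem j⟩ : Submodule.map (LinearMap.mulRight k e)
    (Subalgebra.toSubmodule (Subalgebra.center k (MonoidAlgebra k G))))) := by
    apply LinearIndependent.of_comp (Submodule.subtype _)
    exact hb
  have h2 := h1.fintype_card_le_finrank
  rw [Fintype.card_fin] at h2
  exact h2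

/-- in a block every central element is a scalar plus a nilpotent element -/
theorem IsBlock.scalar [IsAlgClosed k] [Finite G] {e : MonoidAlgebra k G} (he : IsBlock e)
    {z : MonoidAlgebra k G} (hz : ∀ x, x * z = z * x) :
    ∃ c : k, IsNilpotent (z * e - c • e) := by
  obtain ⟨he1, he2, he3, he4⟩ := he
  -- the dichotomy for an element
  have key : ∀ y : MonoidAlgebra k G, (∀ x, x * y = y * x) →
      IsNilpotent (y * e) ∨ ∃ w, w * y * e = e := by
    intro y hy
    have hint : IsIntegral k y := Algebra.IsIntegral.isIntegral y
    have hm0 : minpoly k y ≠ 0 := minpoly.ne_zero hint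
    obtain ⟨q, hq, hq2⟩ := (minpoly k y).exists_eq_pow_rootMultiplicity_mul_and_not_dvd hm0 0
    set s := (minpoly k y).rootMultiplicity 0 with hs
    rw [Polynomial.C_0, sub_zero] at hq hq2
    have hcop : IsCoprime (Polynomial.X ^ s) q :=
      (((Polynomial.irreducible_X).coprime_iff_not_dvd).2 hq2).pow_left
    obtain ⟨a, b, hab⟩ := hcop
    have hmin : (Polynomial.aeval y) (Polynomial.X ^ s * q) = 0 := by
      rw [← hq]
      exact minpoly.aeval k y
    have hcen : ∀ P : Polynomial k, ∀ x, x * Polynomial.aeval y P = Polynomial.aeval y P * x := by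
      intro P x
      have h1 : Commute x y := hy x
      induction P using Polynomial.induction_on' with
      | add P Q hP hQ => rw [map_add, mul_add, add_mul, hP, hQ]
      | monomial n c =>
        rw [Polynomial.aeval_monomial]
        have h2 : x * y ^ n = y ^ n * x := (h1.pow_right n).eq
        have h3 : x * (algebraMap k (MonoidAlgebra k G)) c = (algebraMap k (MonoidAlgebra k G)) c * x :=
          (Algebra.commutes c x).symm
        rw [← mul_assoc, h3, mul_assoc, h2, mul_assoc]
    set g := Polynomial.aeval y (a * Polynomial.X ^ s) with hg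
    have hg' : 1 - g = Polynomial.aeval y (b * q) := by
      have : Polynomial.aeval y (a * Polynomial.X ^ s + b * q) = 1 := by rw [hab]; simp
      rw [map_add] at this
      rw [← this, hg]
      abel
    have hgg : g * (1 - g) = 0 := by
      rw [hg', hg, ← map_mul]
      have : a * Polynomial.X ^ s * (b * q) = (a * b) * (Polynomial.X ^ s * q) := by ring
      rw [this, map_mul, hmin, mul_zero]
    have hgid : IsIdempotentElem g := by
      have : g - g * g = 0 := by rw [← hgg]; noncomm_ring
      exact (sub_eq_zero.mp this).symm
    rcases he4 g hgid (hcen _) with h0 | h0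
    · left
      refine ⟨s + 1, ?_⟩
      have h1 : (1 - g) * e = e := by rw [sub_mul, h0, one_mul, sub_zero]
      have h2 : y ^ s * e = 0 := by
        rw [← h1, hg', ← mul_assoc]
        have : y ^ s * Polynomial.aeval y (b * q) = 0 := by
          have h3 : y ^ s = Polynomial.aeval y (Polynomial.X ^ s : Polynomial k) := by simp
          rw [h3, ← map_mul]
          have h4 : (Polynomial.X : Polynomial k) ^ s * (b * q) = b * (Polynomial.X ^ s * q) := by ring
          rw [h4, map_mul, hmin, mul_zero]
        rw [this, zero_mul]
      have h3 : Commute y e := he2 y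
      rw [h3.mul_pow, he1.pow_succ_eq s, pow_succ', mul_assoc, h2, mul_zero]
    · by_cases hs0 : s = 0
      · -- y is invertible
        right
        have hq0 : q = minpoly k y := by rw [hq, hs0]; simp
        have h5 : ¬ (Polynomial.X ∣ minpoly k y) := by rw [← hq0]; exact hq2
        have h6 : IsCoprime Polynomial.X (minpoly k y) :=
          ((Polynomial.irreducible_X).coprime_iff_not_dvd).2 h5
        obtain ⟨u, v, huv⟩ := h6
        refine ⟨Polynomial.aeval y u, ?_⟩
        have h7 : Polynomial.aeval y (u * Polynomial.X + v * minpoly k y) = 1 := by rw [huv]; simp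
        rw [map_add, map_mul, map_mul, minpoly.aeval, mul_zero, add_zero, Polynomial.aeval_X] at h7
        rw [h7, one_mul]
      · right
        obtain ⟨r, hr⟩ := Nat.exists_eq_succ_of_ne_zero hs0
        refine ⟨Polynomial.aeval y (a * Polynomial.X ^ r), ?_⟩
        have h6 : Polynomial.aeval y (a * Polynomial.X ^ r) * y = g := by
          have h8 : y = Polynomial.aeval y (Polynomial.X : Polynomial k) := by simp
          conv_lhs => rw [h8]
          rw [hg, hr, Nat.succ_eq_add_one, pow_succ, ← mul_assoc]
          simp
        rw [h6, h0]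
  by_contra hcon
  push Not at hcon
  have hinv : ∀ c : k, ∃ w, w * (z - c • 1) * e = e := by
    intro c
    have hy : ∀ x, x * (z - c • 1) = (z - c • 1) * x := by
      intro x
      rw [mul_sub, sub_mul, hz, mul_smul_comm, smul_mul_assoc, mul_one, one_mul]
    rcases key _ hy with h | h
    · exfalso
      apply hcon c
      rwa [sub_mul, smul_mul_assoc, one_mul] at h
    · exact h
  have hint : IsIntegral k z := Algebra.IsIntegral.isIntegral z
  have hsplit := IsAlgClosed.splits (minpoly k z)
  have hprod : ∀ s : Multiset k, ∃ w, w * Polynomial.aeval z (s.map (fun c => Polynomial.X - Polynomial.C c)).prod * e = e := by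
    intro s
    induction s using Multiset.induction_on with
    | empty => exact ⟨1, by simp⟩
    | cons c s ih =>
      obtain ⟨w, hw⟩ := ih
      obtain ⟨v, hv⟩ := hinv c
      refine ⟨w * v, ?_⟩
      rw [Multiset.map_cons, Multiset.prod_cons, mul_comm (Polynomial.X - Polynomial.C c), map_mul]
      have h1 : Polynomial.aeval z (Polynomial.X - Polynomial.C c) = z - c • 1 := by
        simp [Algebra.algebraMap_eq_smul_one]
      rw [h1]
      have h2 : Polynomial.aeval z (s.map (fun c => Polynomial.X - Polynomial.C c)).prod * (z - c • 1) =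
          (z - c • 1) * Polynomial.aeval z (s.map (fun c => Polynomial.X - Polynomial.C c)).prod := by
        have hy : ∀ x, x * (z - c • 1) = (z - c • 1) * x := by
          intro x
          rw [mul_sub, sub_mul, hz, mul_smul_comm, smul_mul_assoc, mul_one, one_mul]
        exact hy _
      calc w * v * (Polynomial.aeval z (s.map (fun c => Polynomial.X - Polynomial.C c)).prod * (z - c • 1)) * e
          = w * (v * (z - c • 1) * (Polynomial.aeval z (s.map (fun c => Polynomial.X - Polynomial.C c)).prod * e)) := by
            rw [h2]; simp only [mul_assoc]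
        _ = w * (v * (z - c • 1) * (e * Polynomial.aeval z (s.map (fun c => Polynomial.X - Polynomial.C c)).prod)) := by
            rw [he2]
        _ = w * (v * (z - c • 1) * e) * Polynomial.aeval z (s.map (fun c => Polynomial.X - Polynomial.C c)).prod := by
            simp only [mul_assoc]
        _ = w * e * Polynomial.aeval z (s.map (fun c => Polynomial.X - Polynomial.C c)).prod := by rw [hv]
        _ = w * (Polynomial.aeval z (s.map (fun c => Polynomial.X - Polynomial.C c)).prod * e) := by
            rw [mul_assoc, he2]
        _ = e := by rw [← mul_assoc, hw]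
  obtain ⟨w, hw⟩ := hprod (minpoly k z).roots
  have h3 : (minpoly k z) = ((minpoly k z).roots.map (fun c => Polynomial.X - Polynomial.C c)).prod :=
    hsplit.eq_prod_roots_of_monic (minpoly.monic hint)
  rw [← h3, minpoly.aeval, mul_zero, zero_mul] at hw
  exact he3 hw.symm

end Pool.Agent.Q288.KB
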