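import Pool.Agent.Q288.KB.Sym

set_option autoImplicit false

open Finset MonoidAlgebra Function

namespace Pool.Agent.Q288.KB

variable {k : Type} [Field k]

/-- a block of dimension at least `d` with a trace subgroup of order `n` -/
def Dat {G : Type} [Group G] (e : MonoidAlgebra k G) (d n : ℕ) : Prop :=
  IsBlock e ∧ Dim e d ∧ ∃ D, IsTrace D e ∧ Nat.card D = n

theorem exists_trace {G : Type} [Group G] [Finite G] {e : MonoidAlgebra k G} (he : IsBlock e) :
    ∃ D, IsTrace D e ∧ Nat.card D = defectOrder e := by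
  have hne : {n : ℕ | ∃ D : Subgroup G, IsTrace D e ∧ Nat.card D = n}.Nonempty := by
    refine ⟨Nat.card (⊤ : Subgroup G), ⊤, ⟨e, ?_, ?_⟩, rfl⟩
    · intro q _
      exact he.2.1 _
    · have hfix : ∀ q ∈ (⊤ : Subgroup G), MonoidAlgebra.of k G q * e = e * MonoidAlgebra.of k G q :=
        fun q _ => he.2.1 _
      rw [trace_eq hfix (fun _ : Unit => (1 : G))]
      · simp [cj_one]
      · constructor
        · intro a b _
          rfl
        · intro x
          obtain ⟨g, rfl⟩ := QuotientGroup.mk_surjective x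
          exact ⟨(), QuotientGroup.eq.2 (Subgroup.mem_top _)⟩
  exact Nat.sInf_mem hne

theorem Dat.le_numChar {G : Type} [Group G] [Finite G] {e : MonoidAlgebra k G} {d n : ℕ} (h : Dat e d n) :
    d ≤ numChar e := dim_le h.2.1

theorem Dat.defect_le {G : Type} [Group G] {e : MonoidAlgebra k G} {d n : ℕ} (h : Dat e d n) :
    defectOrder e ≤ n := Nat.sInf_le h.2.2

theorem dat_self {G : Type} [Group G] [Finite G] {e : MonoidAlgebra k G} (he : IsBlock e) :
    Dat e (numChar e) (defectOrder e) := ⟨he, dim_numChar he, exists_trace he⟩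

theorem Dat.sy {G : Type} [Group G] [Finite G] (S : Sy k G) {e : MonoidAlgebra k G} {d n : ℕ} (h : Dat e d n) :
    Dat (S.ψ e) d n := by
  obtain ⟨h1, h2, D, h3, h4⟩ := h
  exact ⟨S.block h1, S.dim h2, D, S.trace h3, h4⟩

theorem Dat.wreath [IsAlgClosed k] {G : Type} [Group G] [Finite G] {Q : Type} [CommGroup Q] [Fintype Q]
    {c : Q → MonoidAlgebra k G} {d n : ℕ} (hinj : Function.Injective c) (h : ∀ x, Dat (c x) d n) :
    Dat (W c) (d ^ Fintype.card Q) (n ^ Fintype.card Q) :=
  ⟨W_block (fun x => (h x).1) hinj, W_dim (fun x => (h x).1) hinj (fun x => (h x).2.1),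
    W_trace fun x => (h x).2.2⟩

theorem Dat.pow [IsAlgClosed k] {G : Type} [Group G] [Finite G] {e : MonoidAlgebra k G} {d n : ℕ}
    (h : Dat e d n) (m : ℕ) : Dat (T (fun _ : Fin m => e)) (d ^ m) (n ^ m) := by
  obtain ⟨h1, h2, D, h3, h4⟩ := h
  refine ⟨T_block fun _ => h1, ?_, ?_⟩
  · have := T_dim (fun _ : Fin m => h2)
    simpa using this
  · refine ⟨_, T_trace (fun _ : Fin m => h3), ?_⟩
    rw [card_pi_subgroup]
    simp [h4]

/-- a family of groups closed under direct powers and regular wreath products with cyclic groups -/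
structure Closed (P : ∀ (G : Type) [Group G], Prop) : Prop where
  pow : ∀ (G : Type) [Group G] (m : ℕ), P G → P (Fin m → G)
  wreath : ∀ (G : Type) [Group G] (r : ℕ), 0 < r → P G →
    P (RegularWreathProduct G (Multiplicative (ZMod r)))

theorem step_fr [IsAlgClosed k] (p : ℕ) [Fact p.Prime] [CharP k p] [PerfectRing k p]
    {P : ∀ (G : Type) [Group G], Prop} (hP : Closed P)
    {G : Type} [Group G] [Finite G] (hG : P G) {e : MonoidAlgebra k G} {d n : ℕ} (h : Dat e d n) :
    ∃ (G' : Type) (_ : Group G') (_ : Finite G') (e' : MonoidAlgebra k G') (m : ℕ), P G' ∧ 0 < m ∧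
      Dat e' (d ^ m) (n ^ m) ∧ (frS p G').ψ e' = e' := by
  classical
  set F : MonoidAlgebra k G → MonoidAlgebra k G := fun x => (frS p G).ψ x with hF
  have hfin := finite_blocks k G
  let F' : {e : MonoidAlgebra k G // IsBlock e} → {e : MonoidAlgebra k G // IsBlock e} :=
    fun x => ⟨F x.1, (frS p G).block x.2⟩
  have hF'inj : Function.Injective F' := by
    intro x y hxy
    apply Subtype.ext
    exact (frS p G).ψ.injective (congrArg Subtype.val hxy)
  have hper : (⟨e, h.1⟩ : {e : MonoidAlgebra k G // IsBlock e}) ∈ periodicPts F' :=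
    hF'inj.mem_periodicPts _
  have hiter : ∀ (m : ℕ) (x : {e : MonoidAlgebra k G // IsBlock e}), ((F'^[m]) x).1 = F^[m] x.1 := by
    intro m
    induction m with
    | zero => intro x; rfl
    | succ m ih =>
      intro x
      rw [iterate_succ_apply, iterate_succ_apply, ih]
  obtain ⟨m, hm, hm2⟩ := hper
  have hper2 : e ∈ periodicPts F := by
    refine ⟨m, hm, ?_⟩
    have h1 := congrArg Subtype.val hm2
    rw [hiter] at h1
    exact h1
  have hr : 0 < minimalPeriod F e := minimalPeriod_pos_iff_mem_periodicPts.2 hper2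
  set r := minimalPeriod F e with hrdef
  have : NeZero r := ⟨hr.ne'⟩
  let c : Multiplicative (ZMod r) → MonoidAlgebra k G := fun x => F^[(Multiplicative.toAdd x).val] e
  have hcinj : Function.Injective c := by
    intro x y hxy
    have h1 := (iterate_injOn_Iio_minimalPeriod (f := F) (x := e))
      (show (Multiplicative.toAdd x).val ∈ Set.Iio r from ZMod.val_lt _)
      (show (Multiplicative.toAdd y).val ∈ Set.Iio r from ZMod.val_lt _) hxy
    exact Multiplicative.toAdd.injective (ZMod.val_injective r h1)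
  have hc : ∀ x, Dat (c x) d n := by
    intro x
    show Dat (F^[(Multiplicative.toAdd x).val] e) d n
    generalize (Multiplicative.toAdd x).val = a
    induction a with
    | zero => exact h
    | succ a ih =>
      rw [iterate_succ_apply']
      exact ih.sy _
  have hshift : ∀ x, F (c x) = c (Multiplicative.ofAdd 1 * x) := by
    intro x
    show F (F^[(Multiplicative.toAdd x).val] e) = F^[(1 + Multiplicative.toAdd x).val] e
    have h1 : (1 + Multiplicative.toAdd x : ZMod r).val = (Multiplicative.toAdd x).val.succ % r := by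
      rw [ZMod.val_add, ZMod.val_one_eq_one_mod, Nat.mod_add_mod, Nat.succ_eq_add_one, add_comm]
    rw [h1, iterate_mod_minimalPeriod_eq, iterate_succ_apply']
  refine ⟨RegularWreathProduct G (Multiplicative (ZMod r)), inferInstance, inferInstance, W c,
    Fintype.card (Multiplicative (ZMod r)), hP.wreath G r hr hG, Fintype.card_pos, Dat.wreath hcinj hc, ?_⟩
  rw [fr_W]
  have h1 : (fun x => (frS p G).ψ (c x)) = fun x => c (Multiplicative.ofAdd 1 * x) := funext hshift
  rw [h1, W_shift]

theorem step_iv [IsAlgClosed k] (p : ℕ) [Fact p.Prime] [CharP k p] [PerfectRing k p]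
    {P : ∀ (G : Type) [Group G], Prop} (hP : Closed P)
    {G : Type} [Group G] [Finite G] (hG : P G) {e : MonoidAlgebra k G} {d n : ℕ} (h : Dat e d n)
    (hfr : (frS p G).ψ e = e) :
    ∃ (G' : Type) (_ : Group G') (_ : Finite G') (e' : MonoidAlgebra k G') (m : ℕ), P G' ∧ 0 < m ∧
      Dat e' (d ^ m) (n ^ m) ∧ (frS p G').ψ e' = e' ∧ ivS.ψ e' = e' := by
  classical
  by_cases hiv : ivS.ψ e = e
  · exact ⟨G, inferInstance, inferInstance, e, 1, hG, one_pos, by simpa using h, hfr, hiv⟩
  · let c : Multiplicative (ZMod 2) → MonoidAlgebra k G := fun x => if x = 1 then e else ivS.ψ e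
    have h2 : ∀ x : Multiplicative (ZMod 2), x = 1 ∨ x = Multiplicative.ofAdd 1 := by decide
    have hne : (Multiplicative.ofAdd 1 : Multiplicative (ZMod 2)) ≠ 1 := by decide
    have hmm : (Multiplicative.ofAdd 1 : Multiplicative (ZMod 2)) * Multiplicative.ofAdd 1 = 1 := by decide
    have hcinj : Function.Injective c := by
      intro x y hxy
      rcases h2 x with rfl | rfl <;> rcases h2 y with rfl | rfl
      · rfl
      · exfalso
        apply hiv
        simp only [c, if_true, if_neg hne] at hxy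
        exact hxy.symm
      · exfalso
        apply hiv
        simp only [c, if_true, if_neg hne] at hxy
        exact hxy
      · rfl
    have hc : ∀ x, Dat (c x) d n := by
      intro x
      show Dat (if x = 1 then e else ivS.ψ e) d n
      split_ifs
      · exact h
      · exact h.sy _
    refine ⟨RegularWreathProduct G (Multiplicative (ZMod 2)), inferInstance, inferInstance, W c,
      Fintype.card (Multiplicative (ZMod 2)), hP.wreath G 2 two_pos hG, Fintype.card_pos,
      Dat.wreath hcinj hc, ?_, ?_⟩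
    · rw [fr_W]
      congr 1
      funext x
      show (frS p G).ψ (if x = 1 then e else ivS.ψ e) = if x = 1 then e else ivS.ψ e
      split_ifs
      · exact hfr
      · rw [fr_iv, hfr]
    · rw [iv_W]
      have h1 : (fun x => ivS.ψ (c x)) = fun x => c (Multiplicative.ofAdd 1 * x) := by
        funext x
        rcases h2 x with rfl | rfl
        · simp only [c, if_true, mul_one, if_neg hne]
        · simp only [c, if_true, hmm, if_neg hne, iv_iv]
      rw [h1, W_shift]

/-- the reduction to the nice blocks -/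
theorem reduce [IsAlgClosed k] (p : ℕ) [Fact p.Prime] [CharP k p] [PerfectRing k p]
    {P : ∀ (G : Type) [Group G], Prop} (hP : Closed P)
    {G : Type} [Group G] [Finite G] (hG : P G) {e : MonoidAlgebra k G} (he : IsBlock e) :
    ∃ m : ℕ, 0 < m ∧ ∀ N : ℕ, ∃ (G' : Type) (_ : Group G') (_ : Finite G') (e' : MonoidAlgebra k G'),
      P G' ∧ IsBlock e' ∧ (∀ g, e'.coeff g ^ p = e'.coeff g) ∧ (∀ g, e'.coeff g⁻¹ = e'.coeff g) ∧
      numChar e ^ (m * N) ≤ numChar e' ∧ defectOrder e' ≤ defectOrder e ^ (m * N) := by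
  obtain ⟨G₁, _, _, e₁, m₁, hP₁, hm₁, hd₁, hf₁⟩ := step_fr p hP hG (dat_self he)
  obtain ⟨G₂, _, _, e₂, m₂, hP₂, hm₂, hd₂, hf₂, hi₂⟩ := step_iv p hP hP₁ hd₁ hf₁
  refine ⟨m₁ * m₂, Nat.mul_pos hm₁ hm₂, fun N => ⟨Fin N → G₂, inferInstance, inferInstance,
    T (fun _ => e₂), hP.pow G₂ N hP₂, T_block fun _ => hd₂.1, ?_, ?_, ?_, ?_⟩⟩
  · intro g
    rw [← fr_coeff, fr_T]
    simp only [hf₂]
  · intro g
    rw [← iv_coeff, iv_T]
    simp only [hi₂]
  · have := (hd₂.pow N).le_numChar
    rwa [← pow_mul, ← pow_mul, ← mul_assoc] at this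
  · have := (hd₂.pow N).defect_le
    rwa [← pow_mul, ← pow_mul, ← mul_assoc] at this

/-- numbers: a bound up to a constant and an epsilon for all powers -/
theorem amplify {a b θ : ℝ} (hb : 1 ≤ b)
    (h : ∀ ε : ℝ, 0 < ε → ∃ C : ℝ, ∀ N : ℕ, a ^ N ≤ C * (b ^ N) ^ (θ + ε)) : a ≤ b ^ θ := by
  have hb0 : 0 < b := by linarith
  have h1 : ∀ ε : ℝ, 0 < ε → a ≤ b ^ (θ + ε) := by
    intro ε hε
    obtain ⟨C, hC⟩ := h ε hε
    by_contra hcon
    push Not at hcon
    have hpos : 0 < b ^ (θ + ε) := Real.rpow_pos_of_pos hb0 _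
    have hq : 1 < a / b ^ (θ + ε) := (one_lt_div hpos).2 hcon
    obtain ⟨N, hN⟩ := pow_unbounded_of_one_lt C hq
    have h2 := hC N
    have h3 : (b ^ N) ^ (θ + ε) = (b ^ (θ + ε)) ^ N := by
      rw [← Real.rpow_natCast b N, ← Real.rpow_natCast, ← Real.rpow_mul hb0.le, ← Real.rpow_mul hb0.le,
        mul_comm]
    rw [h3] at h2
    rw [div_pow, lt_div_iff₀ (pow_pos hpos N)] at hN
    linarith
  have h2 : Filter.Tendsto (fun ε : ℝ => b ^ (θ + ε)) (nhdsWithin 0 (Set.Ioi 0)) (nhds (b ^ θ)) := by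
    have h3 : Filter.Tendsto (fun ε : ℝ => b ^ (θ + ε)) (nhds 0) (nhds (b ^ (θ + 0))) := by
      apply ContinuousAt.tendsto
      apply ContinuousAt.rpow continuousAt_const
      · exact (continuous_const.add continuous_id).continuousAt
      · left; exact hb0.ne'
    rw [add_zero] at h3
    exact h3.mono_left nhdsWithin_le_nhds
  apply ge_of_tendsto h2
  filter_upwards [self_mem_nhdsWithin] with ε hε
  exact h1 ε hε

theorem defect_pos {G : Type} [Group G] [Finite G] {e : MonoidAlgebra k G} (he : IsBlock e) :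
    1 ≤ defectOrder e := by
  obtain ⟨D, _, hD⟩ := exists_trace he
  rw [← hD]
  exact Nat.one_le_iff_ne_zero.2 Nat.card_pos.ne'

/-- the main theorem -/
theorem main [IsAlgClosed k] (p : ℕ) [Fact p.Prime] [CharP k p]
    {P : ∀ (G : Type) [Group G], Prop} (hP : Closed P) {θ : ℝ} (hθ : 0 ≤ θ)
    (h : ∀ ε : ℝ, 0 < ε → ∃ C : ℝ, ∀ (G : Type) [Group G] [Finite G] (e : MonoidAlgebra k G),
      P G → IsBlock e → (∀ g, e.coeff g ^ p = e.coeff g) → (∀ g, e.coeff g⁻¹ = e.coeff g) →
      (numChar e : ℝ) ≤ C * (defectOrder e : ℝ) ^ (θ + ε))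
    {G : Type} [Group G] [Finite G] {e : MonoidAlgebra k G} (hG : P G) (he : IsBlock e) :
    (numChar e : ℝ) ≤ (defectOrder e : ℝ) ^ θ := by
  have hperf : PerfectRing k p := inferInstance
  obtain ⟨m, hm, hred⟩ := reduce p hP hG he
  have hb : (1 : ℝ) ≤ (defectOrder e : ℝ) ^ m := by
    apply one_le_pow₀
    exact_mod_cast defect_pos he
  have key : ((numChar e : ℝ) ^ m) ≤ ((defectOrder e : ℝ) ^ m) ^ θ := by
    apply amplify hb
    intro ε hε
    obtain ⟨C, hC⟩ := h ε hε
    refine ⟨max C 0, fun N => ?_⟩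
    obtain ⟨G', _, _, e', hP', hb', hr', hi', h1, h2⟩ := hred N
    have h3 := hC G' e' hP' hb' hr' hi'
    have h4 : ((numChar e : ℝ) ^ m) ^ N ≤ (numChar e' : ℝ) := by
      rw [← pow_mul]
      exact_mod_cast h1
    have h5 : (defectOrder e' : ℝ) ≤ ((defectOrder e : ℝ) ^ m) ^ N := by
      rw [← pow_mul]
      exact_mod_cast h2
    calc ((numChar e : ℝ) ^ m) ^ N ≤ (numChar e' : ℝ) := h4
      _ ≤ C * (defectOrder e' : ℝ) ^ (θ + ε) := h3
      _ ≤ max C 0 * (defectOrder e' : ℝ) ^ (θ + ε) := by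
          apply mul_le_mul_of_nonneg_right (le_max_left _ _)
          positivity
      _ ≤ max C 0 * (((defectOrder e : ℝ) ^ m) ^ N) ^ (θ + ε) := by
          apply mul_le_mul_of_nonneg_left _ (le_max_right _ _)
          apply Real.rpow_le_rpow (by positivity) h5 (by linarith)
  have h6 : ((defectOrder e : ℝ) ^ m) ^ θ = ((defectOrder e : ℝ) ^ θ) ^ m := by
    rw [← Real.rpow_natCast, ← Real.rpow_natCast, ← Real.rpow_mul (by positivity),
      ← Real.rpow_mul (by positivity), mul_comm]
  rw [h6] at key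
  exact le_of_pow_le_pow_left₀ hm.ne' (by positivity) key

end Pool.Agent.Q288.KB
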