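import Pool.Agent.Q288.KB.Trc

set_option autoImplicit false

open Finset MonoidAlgebra

namespace Pool.Agent.Q288.KB

variable {k : Type} [Field k] {N H : Type} [Group N] [Group H]

/-- the map of group algebras -/
noncomputable def J (k : Type) [Field k] {N H : Type} [Group N] [Group H] (j : N →* H) :
    MonoidAlgebra k N →ₐ[k] MonoidAlgebra k H := MonoidAlgebra.mapDomainAlgHom k k j

theorem J_of (j : N →* H) (n : N) : J k j (MonoidAlgebra.of k N n) = MonoidAlgebra.of k H (j n) := by
  simp [J]

theorem J_cj (j : N →* H) (n : N) (x : MonoidAlgebra k N) : J k j (cj n x) = cj (j n) (J k j x) := by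
  unfold cj
  rw [map_mul, map_mul, J_of, J_of, map_inv]

theorem J_inj {j : N →* H} (hj : Function.Injective j) : Function.Injective (J k j) := by
  intro x y h
  exact MonoidAlgebra.mapDomain_injective hj h

/-- A normal subgroup `N` (embedded by `j`) with a transversal `t`. -/
structure Sys (N H : Type) [Group N] [Group H] (Q : Type) where
  j : N →* H
  hj : Function.Injective j
  hnorm : ∀ h n, ∃ n', h * j n * h⁻¹ = j n'
  t : Q → H
  ex : ∀ h, ∃ q n, h = t q * j n
  un : ∀ q q' n n', t q * j n = t q' * j n' → q = q'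

namespace Sys

variable {Q : Type} [Fintype Q] (S : Sys N H Q)

/-- the trace to the overgroup -/
noncomputable def E (z : MonoidAlgebra k N) : MonoidAlgebra k H := ∑ q, cj (S.t q) (J k S.j z)

omit [Fintype Q] in
theorem cj_t {z : MonoidAlgebra k N} (hz : ∀ x, x * z = z * x) {h : H} {q : Q} {n : N}
    (hh : h = S.t q * S.j n) : cj h (J k S.j z) = cj (S.t q) (J k S.j z) := by
  rw [hh, cj_cj, ← J_cj, cj_central hz]

theorem E_central {z : MonoidAlgebra k N} (hz : ∀ x, x * z = z * x) :
    ∀ x, x * S.E z = S.E z * x := by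
  classical
  apply central_of_cj
  intro h
  unfold E
  rw [cj_sum]
  have h1 : ∀ q, ∃ q' n, h * S.t q = S.t q' * S.j n := fun q => S.ex _
  choose σ n hσ using h1
  have hinj : Function.Injective σ := by
    intro q q' hqq
    have h2 : S.t q * S.j ((n q)⁻¹ * n q') = S.t q' * S.j 1 := by
      have h3 : h * S.t q * (S.j (n q))⁻¹ = h * S.t q' * (S.j (n q'))⁻¹ := by
        rw [hσ q, hσ q', hqq]
        simp
      have h4 : S.t q * (S.j (n q))⁻¹ = S.t q' * (S.j (n q'))⁻¹ := by
        rw [mul_assoc, mul_assoc] at h3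
        exact mul_left_cancel h3
      rw [map_mul, map_inv, ← mul_assoc, h4, map_one]
      simp
    exact S.un _ _ _ _ h2
  have hbij : Function.Bijective σ := ⟨hinj, Finite.surjective_of_injective hinj⟩
  apply Fintype.sum_equiv (Equiv.ofBijective σ hbij)
  intro q
  rw [← cj_cj]
  exact S.cj_t hz (hσ q)

/-- conjugates outside of `N` are orthogonal -/
def Orth (e : MonoidAlgebra k N) : Prop :=
  ∀ h, (¬ ∃ n, h = S.j n) → cj h (J k S.j e) * J k S.j e = 0

variable {S}

omit [Fintype Q] in
theorem orth2 {e : MonoidAlgebra k N} (ho : S.Orth e) {q q' : Q} (hq : q ≠ q') :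
    cj (S.t q) (J k S.j e) * cj (S.t q') (J k S.j e) = 0 := by
  have h1 : ¬ ∃ n, (S.t q')⁻¹ * S.t q = S.j n := by
    rintro ⟨n, hn⟩
    apply hq
    apply S.un q q' 1 n
    rw [← hn]
    simp
  have h2 := ho _ h1
  have h3 := congrArg (cj (S.t q')) h2
  rw [cj_mul, ← cj_cj, cj_zero] at h3
  simpa using h3

theorem E_mul {e z w : MonoidAlgebra k N} (ho : S.Orth e) (he : ∀ x, x * e = e * x)
    (hz : z * e = z) (hw : w * e = w) : S.E z * S.E w = S.E (z * w) := by
  classical
  unfold E
  rw [Finset.sum_mul]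
  apply Finset.sum_congr rfl
  intro q _
  rw [Finset.mul_sum, Finset.sum_eq_single q]
  · rw [← cj_mul, ← map_mul]
  · intro q' _ hq
    have h1 : cj (S.t q) (J k S.j z) = cj (S.t q) (J k S.j z) * cj (S.t q) (J k S.j e) := by
      rw [← cj_mul, ← map_mul, hz]
    have h2 : cj (S.t q') (J k S.j w) = cj (S.t q') (J k S.j e) * cj (S.t q') (J k S.j w) := by
      rw [← cj_mul, ← map_mul, ← he, hw]
    rw [h1, h2, mul_assoc, ← mul_assoc (cj (S.t q) (J k S.j e)), orth2 ho (Ne.symm hq), zero_mul,
      mul_zero]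
  · intro h
    exact absurd (Finset.mem_univ _) h

theorem E_mul_J {e z : MonoidAlgebra k N} (ho : S.Orth e) (hzc : ∀ x, x * z = z * x)
    (hz : z * e = z) : S.E z * J k S.j e = J k S.j z := by
  classical
  obtain ⟨q₀, n₀, h₀⟩ := S.ex 1
  unfold E
  rw [Finset.sum_mul, Finset.sum_eq_single q₀]
  · rw [← S.cj_t hzc h₀, cj_one, ← map_mul, hz]
  · intro q _ hq
    have h1 : cj (S.t q) (J k S.j z) = cj (S.t q) (J k S.j z) * cj (S.t q) (J k S.j e) := by
      rw [← cj_mul, ← map_mul, hz]
    rw [h1, mul_assoc, ho, mul_zero]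
    rintro ⟨n, hn⟩
    apply hq
    apply S.un q q₀ 1 (n₀ * n)
    rw [map_mul, ← mul_assoc, ← h₀, one_mul, ← hn, map_one, mul_one]
  · intro h
    exact absurd (Finset.mem_univ _) h

theorem E_dim {e : MonoidAlgebra k N} {d : ℕ} (ho : S.Orth e) (he : ∀ x, x * e = e * x)
    (hee : e * e = e)
    (hd : Dim e d) : Dim (S.E e) d := by
  obtain ⟨b, hb, hb2⟩ := hd
  refine ⟨fun i => S.E (b i), ?_, ?_⟩
  · rw [Fintype.linearIndependent_iff] at hb ⊢
    intro c hc
    apply hb
    apply J_inj S.hj
    rw [map_zero, map_sum]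
    have h1 := congrArg (· * J k S.j e) hc
    simp only [Finset.sum_mul, zero_mul, smul_mul_assoc] at h1
    rw [← h1]
    apply Finset.sum_congr rfl
    intro i _
    rw [E_mul_J ho (hb2 i).1 (hb2 i).2, map_smul]
  · intro i
    refine ⟨S.E_central (hb2 i).1, ?_⟩
    show S.E (b i) * S.E e = S.E (b i)
    rw [E_mul ho he (hb2 i).2 hee, (hb2 i).2]

theorem E_block [Finite N] [Finite H] {e : MonoidAlgebra k N} (ho : S.Orth e) (he : IsBlock e) :
    IsBlock (S.E e) := by
  classical
  have : Fintype H := Fintype.ofFinite H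
  have : Fintype N := Fintype.ofFinite N
  obtain ⟨he1, he2, he3, he4⟩ := he
  refine ⟨?_, S.E_central he2, ?_, ?_⟩
  · show S.E e * S.E e = S.E e
    rw [E_mul ho he2 he1 he1, he1]
  · intro h0
    have h1 := E_mul_J ho he2 he1
    rw [h0, zero_mul] at h1
    exact he3 (J_inj S.hj (by rw [← h1, map_zero]))
  · intro f hf hfc
    -- the restriction
    set f' : MonoidAlgebra k N := ∑ n : N, f.coeff (S.j n) • MonoidAlgebra.of k N n with hf'
    have hexp : f = ∑ h : H, f.coeff h • MonoidAlgebra.of k H h := by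
      ext u
      simp [MonoidAlgebra.coeff_sum, MonoidAlgebra.of]
    have hg : J k S.j (e * f' * e) = J k S.j e * f * J k S.j e := by
      conv_rhs => rw [hexp]
      rw [map_mul, map_mul, hf', map_sum, Finset.mul_sum, Finset.sum_mul, Finset.mul_sum,
        Finset.sum_mul]
      apply Fintype.sum_of_injective S.j S.hj
      · intro h hh
        have h1 : ¬ ∃ n, h⁻¹ = S.j n := by
          rintro ⟨n, hn⟩
          apply hh
          exact ⟨n⁻¹, by rw [map_inv, ← hn, inv_inv]⟩
        have h2 := ho _ h1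
        rw [mul_smul_comm, smul_mul_assoc]
        have h3 : J k S.j e * MonoidAlgebra.of k H h * J k S.j e =
            MonoidAlgebra.of k H h * (cj h⁻¹ (J k S.j e) * J k S.j e) := by
          unfold cj
          rw [inv_inv]
          simp only [← mul_assoc]
          rw [of_mul_of_inv, one_mul]
        rw [h3, h2, mul_zero, smul_zero]
      · intro n
        rw [map_smul, J_of]
    have hg2 : J k S.j (e * f' * e) = f * J k S.j e := by
      rw [hg, hfc, mul_assoc, ← map_mul, he1]
    have hcen : ∀ x, x * (e * f' * e) = (e * f' * e) * x := by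
      intro x
      apply J_inj S.hj
      have h5 : J k S.j (x * (e * f' * e)) = J k S.j x * J k S.j (e * f' * e) := map_mul _ _ _
      have h6 : J k S.j (e * f' * e * x) = J k S.j (e * f' * e) * J k S.j x := map_mul _ _ _
      rw [h5, h6, hg2, ← mul_assoc, hfc, mul_assoc, mul_assoc, ← map_mul, ← map_mul, he2]
    have hid : IsIdempotentElem (e * f' * e) := by
      apply J_inj S.hj
      rw [map_mul, hg2]
      calc f * J k S.j e * (f * J k S.j e) = f * (J k S.j e * f) * J k S.j e := by
            simp only [mul_assoc]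
        _ = f * (f * J k S.j e) * J k S.j e := by rw [hfc]
        _ = (f * f) * (J k S.j e * J k S.j e) := by simp only [mul_assoc]
        _ = f * J k S.j e := by rw [hf, ← map_mul, he1]
    have hlast : (e * f' * e) * e = e * f' * e := by rw [mul_assoc, he1]
    have hE : f * S.E e = ∑ q, cj (S.t q) (f * J k S.j e) := by
      unfold E
      rw [Finset.mul_sum]
      apply Finset.sum_congr rfl
      intro q _
      rw [cj_mul, cj_central hfc]
    rcases he4 _ hid hcen with h0 | h0
    · left
      rw [hlast] at h0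
      rw [h0, map_zero] at hg2
      rw [hE, ← hg2]
      simp [cj_zero]
    · right
      rw [hlast] at h0
      rw [h0] at hg2
      rw [hE, ← hg2]
      rfl

theorem E_trace [Finite N] [Finite H] {e : MonoidAlgebra k N} {D : Subgroup N} (hD : IsTrace D e) :
    IsTrace (D.map S.j) (S.E e) := by
  classical
  obtain ⟨a, ha, hae⟩ := hD
  have hfix : ∀ q ∈ D.map S.j, MonoidAlgebra.of k H q * J k S.j a =
      J k S.j a * MonoidAlgebra.of k H q := by
    rintro q ⟨n, hn, rfl⟩
    rw [← J_of, ← map_mul, ha n hn, map_mul]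
  refine ⟨J k S.j a, hfix, ?_⟩
  have : Fintype (N ⧸ D) := Fintype.ofFinite _
  rw [trace_eq hfix (fun x : Q × (N ⧸ D) => S.t x.1 * S.j (Quotient.out x.2))]
  · rw [Fintype.sum_prod_type]
    unfold E
    apply Finset.sum_congr rfl
    intro q _
    simp only [cj_cj]
    rw [← cj_sum]
    congr 1
    rw [hae, finsum_eq_sum_of_fintype, map_sum]
    apply Finset.sum_congr rfl
    intro y _
    exact J_cj _ _ _
  · constructor
    · rintro ⟨q, y⟩ ⟨q', y'⟩ hyy
      obtain ⟨d, hd, hd2⟩ := QuotientGroup.eq.1 hyy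
      have h1 : S.t q' * S.j (Quotient.out y') = S.t q * S.j (Quotient.out y * d) := by
        rw [map_mul, hd2]
        simp [mul_assoc]
      have h2 := S.un _ _ _ _ h1
      subst h2
      have h3 := S.hj (mul_left_cancel h1)
      have h4 : ((Quotient.out y : N) : N ⧸ D) = ((Quotient.out y' : N) : N ⧸ D) := by
        apply QuotientGroup.eq.2
        rw [h3]
        simpa using hd
      rw [QuotientGroup.out_eq', QuotientGroup.out_eq'] at h4
      rw [h4]
    · intro x
      obtain ⟨h, rfl⟩ := QuotientGroup.mk_surjective x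
      obtain ⟨q, n, rfl⟩ := S.ex h
      refine ⟨(q, ((n : N) : N ⧸ D)), ?_⟩
      apply QuotientGroup.eq.2
      obtain ⟨d, hd⟩ := QuotientGroup.mk_out_eq_mul D n
      show (S.t q * S.j (Quotient.out ((n : N) : N ⧸ D)))⁻¹ * (S.t q * S.j n) ∈ D.map S.j
      rw [hd]
      refine ⟨(d : N)⁻¹, D.inv_mem d.2, ?_⟩
      rw [map_inv, map_mul]
      simp [mul_assoc]

omit [Fintype Q] in
theorem card_map (D : Subgroup N) : Nat.card (D.map S.j) = Nat.card D :=
  (Nat.card_congr (D.equivMapOfInjective S.j S.hj).toEquiv).symm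

end Sys

end Pool.Agent.Q288.KB
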