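import Pool.Agent.Q288.KB.Blk

set_option autoImplicit false

open Finset MonoidAlgebra

namespace Pool.Agent.Q288.KB

variable {k : Type} [Field k] {G : Type} [Group G] {ι : Type} [Fintype ι]

/-- class sums -/
noncomputable def cls (k : Type) [Field k] {G : Type} [Group G] [Fintype G] (C : ConjClasses G) :
    MonoidAlgebra k G := by
  classical
  exact ∑ g : G, if ConjClasses.mk g = C then MonoidAlgebra.single g 1 else 0

theorem cls_coeff [Fintype G] [DecidableEq (ConjClasses G)] (C : ConjClasses G) (u : G) :
    (cls k C).coeff u = if ConjClasses.mk u = C then 1 else 0 := by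
  classical
  unfold cls
  rw [MonoidAlgebra.coeff_sum, Finsupp.finsetSum_apply, Finset.sum_eq_single u]
  · by_cases h : ConjClasses.mk u = C
    · simp [h]
    · simp [h]
  · intro v _ hv
    split_ifs
    · rw [MonoidAlgebra.coeff_single, Finsupp.single_eq_of_ne (Ne.symm hv)]
    · simp
  · intro h
    exact absurd (Finset.mem_univ _) h

theorem coeff_conj (a : MonoidAlgebra k G) (g u : G) :
    (MonoidAlgebra.of k G g * a * MonoidAlgebra.of k G g⁻¹).coeff u = a.coeff (g⁻¹ * u * g) := by
  have h1 : MonoidAlgebra.of k G g = MonoidAlgebra.single g 1 := rfl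
  have h2 : MonoidAlgebra.of k G g⁻¹ = MonoidAlgebra.single g⁻¹ 1 := rfl
  rw [h1, h2, MonoidAlgebra.coeff_mul_single_apply, MonoidAlgebra.coeff_single_mul_apply]
  simp [mul_assoc]

theorem of_mul_of_inv (g : G) : MonoidAlgebra.of k G g * MonoidAlgebra.of k G g⁻¹ = 1 := by
  rw [← map_mul, mul_inv_cancel, map_one]

theorem of_inv_mul_of (g : G) : MonoidAlgebra.of k G g⁻¹ * MonoidAlgebra.of k G g = 1 := by
  rw [← map_mul, inv_mul_cancel, map_one]

theorem central_iff_conj (a : MonoidAlgebra k G) :
    (∀ x, x * a = a * x) ↔ ∀ g u : G, a.coeff (g⁻¹ * u * g) = a.coeff u := by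
  rw [central_iff]
  constructor
  · intro h g u
    rw [← coeff_conj, h g, mul_assoc, of_mul_of_inv, mul_one]
  · intro h g
    have h1 : MonoidAlgebra.of k G g * a * MonoidAlgebra.of k G g⁻¹ = a := by
      ext u
      rw [coeff_conj, h g u]
    conv_rhs => rw [← h1]
    rw [mul_assoc, of_inv_mul_of, mul_one]

theorem cls_central [Fintype G] (C : ConjClasses G) : ∀ x, x * cls k C = cls k C * x := by
  classical
  rw [central_iff_conj]
  intro g u
  rw [cls_coeff, cls_coeff]
  have : ConjClasses.mk (g⁻¹ * u * g) = ConjClasses.mk u := by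
    rw [ConjClasses.mk_eq_mk_iff_isConj]
    have := isConj_iff.2 ⟨g⁻¹, (by simp : g⁻¹ * u * g⁻¹⁻¹ = g⁻¹ * u * g)⟩
    exact this.symm
  rw [this]

/-- a central element of the group algebra of a power is a combination of tensor products of class
sums -/
theorem central_expand [Fintype G] [DecidableEq ι] [Fintype (ConjClasses G)] (f : MonoidAlgebra k (ι → G)) (hf : ∀ x, x * f = f * x) :
    ∃ c : (ι → ConjClasses G) → k, f = ∑ C : ι → ConjClasses G, c C • T (fun i => cls k (C i)) := by
  classical
  let out : ConjClasses G → G := Function.surjInv ConjClasses.mk_surjective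
  have hout : ∀ C, ConjClasses.mk (out C) = C := Function.surjInv_eq ConjClasses.mk_surjective
  refine ⟨fun C => f.coeff (fun i => out (C i)), ?_⟩
  ext u
  rw [MonoidAlgebra.coeff_sum, Finsupp.finsetSum_apply, Finset.sum_eq_single (fun i => ConjClasses.mk (u i))]
  · rw [MonoidAlgebra.coeff_smul_apply, T_coeff]
    have h1 : ∏ x, (cls k (ConjClasses.mk (u x))).coeff (u x) = 1 := by
      apply Finset.prod_eq_one
      intro x _
      rw [cls_coeff, if_pos rfl]
    rw [h1, smul_eq_mul, mul_one]
    have h2 : ∀ i, ∃ c : G, u i = c⁻¹ * out (ConjClasses.mk (u i)) * c := by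
      intro i
      have h3 : ConjClasses.mk (out (ConjClasses.mk (u i))) = ConjClasses.mk (u i) := hout _
      rw [ConjClasses.mk_eq_mk_iff_isConj] at h3
      obtain ⟨c, hc⟩ := isConj_iff.1 h3
      exact ⟨c⁻¹, by rw [inv_inv]; exact hc.symm⟩
    choose c hc using h2
    have h4 := (central_iff_conj f).1 hf c (fun i => out (ConjClasses.mk (u i)))
    show f.coeff u = f.coeff (fun i => out (ConjClasses.mk (u i)))
    rw [← h4]
    congr 1
    funext i
    exact hc i
  · intro C _ hC
    rw [MonoidAlgebra.coeff_smul_apply, T_coeff]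
    obtain ⟨i, hi⟩ := Function.ne_iff.mp hC
    have : ∏ x, (cls k (C x)).coeff (u x) = 0 := by
      apply Finset.prod_eq_zero (Finset.mem_univ i)
      rw [cls_coeff, if_neg (Ne.symm hi)]
    rw [this, smul_zero]
  · intro h
    exact absurd (Finset.mem_univ _) h

theorem sub_idem {A : Type} [CommRing A] {a b : A} (ha : a * a = a) (hb : b * b = b)
    (hab : a * b = b) : IsIdempotentElem (a - b) := by
  show (a - b) * (a - b) = a - b
  linear_combination ha + hb - 2 * hab

/-- the tensor product of blocks is a block -/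
theorem T_block [IsAlgClosed k] [Finite G] {e : ι → MonoidAlgebra k G} (he : ∀ i, IsBlock (e i)) :
    IsBlock (T e) := by
  classical
  have : Fintype G := Fintype.ofFinite G
  have : Fintype (ConjClasses G) := Fintype.ofFinite _
  have hcen : ∀ x, x * T e = T e * x := T_central fun i => (he i).2.1
  have hid : IsIdempotentElem (T e) := by
    show T e * T e = T e
    rw [T_mul]
    congr 1
    funext i
    exact (he i).1
  have hne : T e ≠ 0 := T_ne_zero fun i => (he i).2.2.1
  refine ⟨hid, hcen, hne, ?_⟩
  intro f hf hfc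
  -- the centre
  let R := Subalgebra.center k (MonoidAlgebra k (ι → G))
  have hR : ∀ {z : MonoidAlgebra k (ι → G)}, (∀ x, x * z = z * x) → z ∈ R := fun {z} h =>
    (mem_center_iff z).2 h
  let π : R →+* R ⧸ nilradical R := Ideal.Quotient.mk _
  have hπ : ∀ z : R, IsNilpotent z → π z = 0 := by
    intro z hz
    exact Ideal.Quotient.eq_zero_iff_mem.2 (mem_nilradical.2 hz)
  -- changing one coordinate by a nilpotent element
  have hnil : ∀ (a : ι → MonoidAlgebra k G) (i : ι), IsNilpotent (a i) → IsNilpotent (T a) := by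
    intro a i hi
    obtain ⟨n, hn⟩ := hi
    refine ⟨n + 1, ?_⟩
    rw [T_pow _ _ (Nat.succ_ne_zero n)]
    apply T_zero (x := i)
    rw [Pi.pow_apply, pow_succ, hn, zero_mul]
  have hone : ∀ (a : ι → MonoidAlgebra k G) (i : ι) (b : MonoidAlgebra k G)
      (ha : ∀ i, ∀ x, x * a i = a i * x) (hb : ∀ x, x * b = b * x), IsNilpotent (a i - b) →
      ∃ (h1 : T a ∈ R) (h2 : T (Function.update a i b) ∈ R), π ⟨T a, h1⟩ = π ⟨_, h2⟩ := by
    intro a i b ha hb hab
    have hu : ∀ j, ∀ x, x * Function.update a i b j = Function.update a i b j * x := by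
      intro j x
      by_cases hj : j = i
      · subst hj; simp [hb x]
      · simp [Function.update_of_ne hj, ha j x]
    have h1 : T a ∈ R := hR (T_central ha)
    have h2 : T (Function.update a i b) ∈ R := hR (T_central hu)
    refine ⟨h1, h2, ?_⟩
    rw [← sub_eq_zero, ← map_sub]
    apply hπ
    have h3 : T a - T (Function.update a i b) = T (Function.update a i (a i - b)) := by
      have h4 := (Tm k ι G).map_update_add a i (a i - b) b
      rw [sub_add_cancel, Function.update_eq_self] at h4
      have h5 : T a = T (Function.update a i (a i - b)) + T (Function.update a i b) := h4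
      rw [h5]
      abel
    obtain ⟨n, hn⟩ := hnil (Function.update a i (a i - b)) i (by simpa using hab)
    refine ⟨n, ?_⟩
    apply Subtype.ext
    rw [← h3] at hn
    simpa using hn
  -- changing all coordinates
  have hall : ∀ (a b : ι → MonoidAlgebra k G)
      (ha : ∀ i, ∀ x, x * a i = a i * x) (hb : ∀ i, ∀ x, x * b i = b i * x),
      (∀ i, IsNilpotent (a i - b i)) →
      ∃ (h1 : T a ∈ R) (h2 : T b ∈ R), π ⟨T a, h1⟩ = π ⟨T b, h2⟩ := by
    intro a b ha hb hab
    have step : ∀ s : Finset ι, ∃ (h1 : T a ∈ R) (h2 : T (fun i => if i ∈ s then b i else a i) ∈ R),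
        π ⟨T a, h1⟩ = π ⟨_, h2⟩ := by
      intro s
      induction s using Finset.induction_on with
      | empty =>
        refine ⟨hR (T_central ha), ?_, ?_⟩
        · simpa using hR (T_central ha)
        · congr 1
      | insert i s his ih =>
        obtain ⟨h1, h2, h3⟩ := ih
        have hc : ∀ j, ∀ x, x * (if j ∈ s then b j else a j) = (if j ∈ s then b j else a j) * x := by
          intro j x
          split_ifs
          · exact hb j x
          · exact ha j x
        obtain ⟨h4, h5, h6⟩ := hone (fun j => if j ∈ s then b j else a j) i (b i) hc (hb i)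
          (by simpa [his] using hab i)
        have h7 : Function.update (fun j => if j ∈ s then b j else a j) i (b i) =
            fun j => if j ∈ insert i s then b j else a j := by
          funext j
          by_cases hj : j = i
          · subst hj; simp
          · simp [Finset.mem_insert, hj]
        refine ⟨h1, ?_, ?_⟩
        · rw [← h7]; exact h5
        · rw [h3, h6]
          congr 1
          apply Subtype.ext
          exact congrArg T h7
    obtain ⟨h1, h2, h3⟩ := step Finset.univ
    simp only [Finset.mem_univ, if_true] at h2 h3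
    exact ⟨h1, h2, h3⟩
  -- the class of `f * T e`
  have hTeR : T e ∈ R := hR hcen
  have hmain : ∃ (μ : k) (h1 : f * T e ∈ R), π ⟨f * T e, h1⟩ = π (μ • ⟨T e, hTeR⟩) := by
    obtain ⟨c, hc⟩ := central_expand f hfc
    have hterm : ∀ C : ι → ConjClasses G, ∃ (μ : k) (h1 : T (fun i => cls k (C i)) * T e ∈ R),
        π ⟨_, h1⟩ = π (μ • ⟨T e, hTeR⟩) := by
      intro C
      have h1 : ∀ i, ∃ l : k, IsNilpotent (cls k (C i) * e i - l • e i) := fun i =>
        (he i).scalar (cls_central (C i))
      choose l hl using h1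
      have hca : ∀ i, ∀ x, x * (cls k (C i) * e i) = (cls k (C i) * e i) * x := by
        intro i x
        rw [← mul_assoc, cls_central, mul_assoc, (he i).2.1, ← mul_assoc]
      have hcb : ∀ i, ∀ x, x * (l i • e i) = (l i • e i) * x := by
        intro i x
        rw [mul_smul_comm, smul_mul_assoc, (he i).2.1]
      obtain ⟨h2, h3, h4⟩ := hall (fun i => cls k (C i) * e i) (fun i => l i • e i) hca hcb hl
      have h5 : T (fun i => cls k (C i)) * T e = T (fun i => cls k (C i) * e i) := by
        rw [T_mul]; rfl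
      refine ⟨∏ i, l i, by rw [h5]; exact h2, ?_⟩
      have h6 : T (fun i => l i • e i) = (∏ i, l i) • T e := T_smul l e
      have h7 : (⟨T (fun i => l i • e i), h3⟩ : R) = (∏ i, l i) • (⟨T e, hTeR⟩ : R) :=
        Subtype.ext h6
      rw [← h7, ← h4]
      congr 1
      exact Subtype.ext h5
    choose μ h1 h2 using hterm
    refine ⟨∑ C, c C * μ C, ?_, ?_⟩
    · apply hR
      intro x
      rw [← mul_assoc, hfc, mul_assoc, hcen, ← mul_assoc]
    · have h3 : f * T e = ∑ C : ι → ConjClasses G, c C • (T (fun i => cls k (C i)) * T e) := by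
        conv_lhs => rw [hc]
        rw [Finset.sum_mul]
        simp only [smul_mul_assoc]
      have hmem : f * T e ∈ R := by
        apply hR
        intro x
        rw [← mul_assoc, hfc, mul_assoc, hcen, ← mul_assoc]
      have h4 : (⟨f * T e, hmem⟩ : R) = ∑ C : ι → ConjClasses G, c C • (⟨_, h1 C⟩ : R) := by
        apply Subtype.ext
        show f * T e = ((∑ C : ι → ConjClasses G, c C • (⟨_, h1 C⟩ : R) : R) : MonoidAlgebra k (ι → G))
        rw [h3]
        simp
      rw [h4, map_sum]
      have h5 : ∀ C : ι → ConjClasses G, π (c C • (⟨_, h1 C⟩ : R)) = π ((c C * μ C) • ⟨T e, hTeR⟩) := by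
        intro C
        rw [mul_smul, Algebra.smul_def, Algebra.smul_def (c C) (μ C • _), map_mul, map_mul, h2]
      rw [Finset.sum_congr rfl fun C _ => h5 C, ← map_sum, ← Finset.sum_smul]
  obtain ⟨μ, h1, h2⟩ := hmain
  have hfe : IsIdempotentElem (⟨f * T e, h1⟩ : R) := by
    apply Subtype.ext
    show f * T e * (f * T e) = f * T e
    calc f * T e * (f * T e) = f * (T e * f) * T e := by simp only [mul_assoc]
      _ = f * (f * T e) * T e := by rw [hfc (T e)]
      _ = (f * f) * (T e * T e) := by simp only [mul_assoc]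
      _ = f * T e := by rw [hf, hid]
  have hidR : IsIdempotentElem (⟨T e, hTeR⟩ : R) := Subtype.ext hid
  -- a nilpotent idempotent is zero
  have hni : ∀ z : R, IsIdempotentElem z → IsNilpotent z → z = 0 := by
    intro z hz hz2
    obtain ⟨n, hn⟩ := hz2
    have := hz.pow_succ_eq n
    rw [pow_succ, hn, zero_mul] at this
    exact this.symm
  have hker : ∀ z : R, π z = 0 → IsNilpotent z := by
    intro z hz
    exact mem_nilradical.1 (Ideal.Quotient.eq_zero_iff_mem.1 hz)
  have hμ : μ = 0 ∨ μ = 1 := by
    by_contra hcon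
    push Not at hcon
    have h3 : π ((μ * μ - μ) • ⟨T e, hTeR⟩) = 0 := by
      have h4 : π (⟨f * T e, h1⟩ * ⟨f * T e, h1⟩) = π ⟨f * T e, h1⟩ := by rw [hfe]
      rw [map_mul, h2, ← map_mul, smul_mul_smul_comm, hidR] at h4
      rw [sub_smul, map_sub, h4, sub_self]
    have h5 : π (⟨T e, hTeR⟩) = 0 := by
      have h6 : (⟨T e, hTeR⟩ : R) = (μ * μ - μ)⁻¹ • ((μ * μ - μ) • ⟨T e, hTeR⟩) := by
        rw [smul_smul, inv_mul_cancel₀, one_smul]
        intro h7
        have h8 : μ * (μ - 1) = 0 := by rw [← h7]; ring
        rcases mul_eq_zero.1 h8 with h9 | h9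
        · exact hcon.1 h9
        · exact hcon.2 (sub_eq_zero.1 h9)
      rw [h6, Algebra.smul_def, map_mul, h3, mul_zero]
    have h6 := hni _ hidR (hker _ h5)
    exact hne (congrArg Subtype.val h6)
  rcases hμ with rfl | rfl
  · left
    rw [zero_smul, map_zero] at h2
    have h3 := hni _ hfe (hker _ h2)
    exact congrArg Subtype.val h3
  · right
    rw [one_smul] at h2
    have h3 : π (⟨T e, hTeR⟩ - ⟨f * T e, h1⟩) = 0 := by rw [map_sub, h2, sub_self]
    have hid2 : IsIdempotentElem ((⟨T e, hTeR⟩ : R) - ⟨f * T e, h1⟩) := by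
      have h4 : (⟨T e, hTeR⟩ : R) * ⟨f * T e, h1⟩ = ⟨f * T e, h1⟩ := by
        apply Subtype.ext
        show T e * (f * T e) = f * T e
        rw [← hcen, mul_assoc, hid]
      exact sub_idem hidR hfe h4
    have h4 := hni _ hid2 (hker _ h3)
    have h5 := congrArg Subtype.val (sub_eq_zero.1 h4)
    exact h5.symm

/-- dimensions multiply -/
theorem T_dim [Finite G] {e : ι → MonoidAlgebra k G} {d : ι → ℕ} (h : ∀ i, Dim (e i) (d i)) :
    Dim (T e) (∏ i, d i) := by
  classical
  have : Fintype G := Fintype.ofFinite G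
  choose b hb hb2 using h
  -- dual functionals
  have hdual : ∀ i, ∃ φ : Fin (d i) → (MonoidAlgebra k G →ₗ[k] k), ∀ j j', φ j (b i j') = if j = j' then 1 else 0 := by
    intro i
    obtain ⟨L, hL⟩ := (Fintype.linearCombination k (b i)).exists_leftInverse_of_injective
      (LinearMap.ker_eq_bot.2 (linearIndependent_iff_injective_fintypeLinearCombination.1 (hb i)))
    refine ⟨fun j => (LinearMap.proj j).comp L, ?_⟩
    intro j j'
    have h1 : b i j' = Fintype.linearCombination k (b i) (Pi.single j' 1) := by
      simp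
    rw [h1]
    have h2 := LinearMap.congr_fun hL (Pi.single j' 1)
    simp only [LinearMap.comp_apply, LinearMap.id_apply, LinearMap.proj_apply] at h2 ⊢
    rw [h2, Pi.single_apply]
  choose φ hφ using hdual
  have hlin : LinearIndependent k (fun j : ∀ i, Fin (d i) => T (fun i => b i (j i))) := by
    rw [Fintype.linearIndependent_iff]
    intro c hc j
    obtain ⟨Φ, hΦ⟩ := T_pair (k := k) (G := G) (fun i => φ i (j i))
    have h1 := congrArg Φ hc
    rw [map_sum, map_zero] at h1
    simp only [map_smul, hΦ, hφ, smul_eq_mul] at h1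
    rw [Finset.sum_eq_single j] at h1
    · simpa using h1
    · intro j' _ hj'
      obtain ⟨i, hi⟩ := Function.ne_iff.mp hj'
      have : ∏ x, (if j x = j' x then (1 : k) else 0) = 0 := by
        apply Finset.prod_eq_zero (Finset.mem_univ i)
        rw [if_neg (Ne.symm hi)]
      rw [this, mul_zero]
    · intro h
      exact absurd (Finset.mem_univ _) h
  have hcard : Fintype.card (∀ i, Fin (d i)) = ∏ i, d i := by simp
  let σ : Fin (∏ i, d i) ≃ (∀ i, Fin (d i)) := (Fintype.equivFinOfCardEq hcard).symm
  refine ⟨fun n => T (fun i => b i (σ n i)), ?_, ?_⟩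
  · exact hlin.comp σ σ.injective
  · intro n
    refine ⟨T_central fun i => (hb2 i _).1, ?_⟩
    show T (fun i => b i (σ n i)) * T e = T (fun i => b i (σ n i))
    rw [T_mul]
    congr 1
    funext i
    exact (hb2 i _).2

end Pool.Agent.Q288.KB
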