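import Pool.Agent.Q288.KB.Fin

/-!
# Brauer's `k(B)` conjecture: real blocks defined over the prime field suffice, and weak bounds suffice

Brauer's inequality `k(B) ≤ |δ(B)|` holds for all `p`-blocks if (and only if) for every `ε > 0` the
bound `k(B) ≤ C_ε |δ(B)| ^ (1 + ε)` holds for the blocks whose idempotent has coefficients in the
field with `p` elements and is invariant under the inversion of the group elements.

Proof. Let `e = e_1, ..., e_r` be the conjugates of the block idempotent `e` under the Frobenius map
on the coefficients. In the regular wreath product of `G` and the cyclic group of order `r` the sum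
of the `r` shifts of `e_1 ⊗ ... ⊗ e_r` is the idempotent of a block with `k(B) ^ r` characters and
defect groups of order at most `|δ(B)| ^ r`, and its coefficients are in the prime field. In the same
way the pair `e`, `e*` gives a real block. Then one passes to direct powers.
-/

set_option autoImplicit false

open MonoidAlgebra

namespace Pool.Agent.Q288.KB.RealRationalBlocks

section defs
variable {k : Type} [Field k] {G : Type} [Group G]

/-- `e` is the idempotent of a block of `kG`: a primitive idempotent of the centre. -/
def IsBlock (e : MonoidAlgebra k G) : Prop :=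
  IsIdempotentElem e ∧ (∀ x, x * e = e * x) ∧ e ≠ 0 ∧
    ∀ f : MonoidAlgebra k G, IsIdempotentElem f → (∀ x, x * f = f * x) → f * e = 0 ∨ f * e = e

/-- `e` is the relative trace of an element fixed by `D`. The defect groups of the block are the
subgroups of the smallest order with this property. -/
def IsTrace (D : Subgroup G) (e : MonoidAlgebra k G) : Prop :=
  ∃ a : MonoidAlgebra k G,
    (∀ q ∈ D, MonoidAlgebra.of k G q * a = a * MonoidAlgebra.of k G q) ∧
    e = ∑ᶠ x : G ⧸ D, MonoidAlgebra.of k G (Quotient.out x) * a *
          MonoidAlgebra.of k G (Quotient.out x)⁻¹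

/-- `k(B)`, the dimension of `Z(kG)e` -/
noncomputable def numChar (e : MonoidAlgebra k G) : ℕ :=
  Module.finrank k (Submodule.map (LinearMap.mulRight k e)
    (Subalgebra.toSubmodule (Subalgebra.center k (MonoidAlgebra k G))))

/-- `|δ(B)|`, the order of the defect groups -/
noncomputable def defectOrder (e : MonoidAlgebra k G) : ℕ :=
  sInf {n : ℕ | ∃ D : Subgroup G, IsTrace D e ∧ Nat.card D = n}

/-- The coefficients of `e` are in the field with `p` elements. -/
def Rational (p : ℕ) (e : MonoidAlgebra k G) : Prop := ∀ g, e.coeff g ^ p = e.coeff g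

/-- `e` is invariant under the inversion of the group elements (the block is equal to its dual). -/
def RealBlock (e : MonoidAlgebra k G) : Prop := ∀ g, e.coeff g⁻¹ = e.coeff g

end defs

/-- a class of groups which contains with `G` the direct powers of `G` and the regular wreath products
of `G` with the finite cyclic groups -/
structure Closed (P : ∀ (G : Type) [Group G], Prop) : Prop where
  pow : ∀ (G : Type) [Group G] (m : ℕ), P G → P (Fin m → G)
  wreath : ∀ (G : Type) [Group G] (r : ℕ), 0 < r → P G →
    P (RegularWreathProduct G (Multiplicative (ZMod r)))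

/-- `k(B) ≤ |δ(B)| ^ θ` for all blocks of the finite groups in the class -/
def Strong (k : Type) [Field k] (P : ∀ (G : Type) [Group G], Prop) (θ : ℝ) : Prop :=
  ∀ (G : Type) [Group G] [Finite G] (e : MonoidAlgebra k G), P G → IsBlock e →
    (numChar e : ℝ) ≤ (defectOrder e : ℝ) ^ θ

/-- `k(B) ≤ C_ε |δ(B)| ^ (θ + ε)` for all `ε > 0` and all real blocks over the prime field of the finite
groups in the class -/
def Weak (p : ℕ) (k : Type) [Field k] (P : ∀ (G : Type) [Group G], Prop) (θ : ℝ) : Prop :=
  ∀ ε : ℝ, 0 < ε → ∃ C : ℝ, ∀ (G : Type) [Group G] [Finite G] (e : MonoidAlgebra k G), P G →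
    IsBlock e → Rational p e → RealBlock e → (numChar e : ℝ) ≤ C * (defectOrder e : ℝ) ^ (θ + ε)

/-- Brauer's conjecture, Q1 of the problem: `k(B) ≤ |D|` for all blocks and all subgroups `D` of the
smallest order from which the block idempotent is a relative trace. -/
def Brauer : Prop :=
  ∀ (p : ℕ), p.Prime → ∀ (k : Type) [Field k] [IsAlgClosed k] [CharP k p]
    (G : Type) [Group G] [Finite G] (e : MonoidAlgebra k G), IsBlock e →
    ∀ D : Subgroup G, IsTrace D e → (∀ Q : Subgroup G, IsTrace Q e → Nat.card D ≤ Nat.card Q) →
      numChar e ≤ Nat.card D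

/-- (1) For every prime `p`, every algebraically closed field `k` of characteristic `p`, every class of
groups closed under direct powers and regular wreath products with cyclic groups and every exponent
`θ ≥ 0`: the bound `k(B) ≤ |δ(B)| ^ θ` holds for all blocks of the finite groups in the class if and
only if for all `ε > 0` the bound `k(B) ≤ C_ε |δ(B)| ^ (θ + ε)` holds for the real blocks over the
prime field.
(2) Brauer's conjecture (the statement Q1 of the problem) holds if and only if for all `p`, `k` and
`ε > 0` there is a `C` with `k(B) ≤ C |δ(B)| ^ (1 + ε)` for all real blocks over the prime field. -/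
theorem result :
    (∀ (p : ℕ), p.Prime → ∀ (k : Type) [Field k] [IsAlgClosed k] [CharP k p]
      (P : ∀ (G : Type) [Group G], Prop), Closed P → ∀ θ : ℝ, 0 ≤ θ →
      (Strong k P θ ↔ Weak p k P θ)) ∧
    (Brauer ↔
      ∀ (p : ℕ), p.Prime → ∀ (k : Type) [Field k] [IsAlgClosed k] [CharP k p],
        Weak p k (fun _ _ => True) 1) := by
  have h1 : ∀ (p : ℕ), p.Prime → ∀ (k : Type) [Field k] [IsAlgClosed k] [CharP k p]
      (P : ∀ (G : Type) [Group G], Prop), Closed P → ∀ θ : ℝ, 0 ≤ θ →
      (Strong k P θ ↔ Weak p k P θ) := by
    intro p hp k _ _ _ P hP θ hθ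
    have : Fact p.Prime := ⟨hp⟩
    constructor
    · intro h ε hε
      refine ⟨1, fun G _ _ e hG he _ _ => ?_⟩
      rw [one_mul]
      refine (h G e hG he).trans ?_
      apply Real.rpow_le_rpow_of_exponent_le
      · exact_mod_cast Pool.Agent.Q288.KB.defect_pos he
      · linarith
    · intro h G _ _ e hG he
      exact Pool.Agent.Q288.KB.main p ⟨hP.pow, hP.wreath⟩ hθ h hG he
  refine ⟨h1, ?_⟩
  have hT : Closed (fun _ _ => True) := ⟨fun _ _ _ _ => trivial, fun _ _ _ _ _ => trivial⟩
  constructor
  · intro h p hp k _ _ _
    apply (h1 p hp k (fun _ _ => True) hT 1 zero_le_one).1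
    intro G _ _ e _ he
    obtain ⟨D, hD, hD2⟩ := Pool.Agent.Q288.KB.exists_trace he
    have h2 := h p hp k G e he D hD (fun Q hQ => by
      rw [hD2]
      exact Nat.sInf_le ⟨Q, hQ, rfl⟩)
    rw [Real.rpow_one]
    rw [hD2] at h2
    exact_mod_cast h2
  · intro h p hp k _ _ _ G _ _ e he D hD _
    have h2 := (h1 p hp k (fun _ _ => True) hT 1 zero_le_one).2 (h p hp k) G e trivial he
    rw [Real.rpow_one] at h2
    have h3 : numChar e ≤ defectOrder e := by exact_mod_cast h2
    refine le_trans h3 ?_
    exact Nat.sInf_le ⟨D, hD, rfl⟩

end Pool.Agent.Q288.KB.RealRationalBlocks
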