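import Pool.Agent.Q288.KB.Wr

set_option autoImplicit false

open Finset MonoidAlgebra

namespace Pool.Agent.Q288.KB

variable {k : Type} [Field k] {G : Type} [Group G]

/-- symmetries of a group algebra -/
structure Sy (k : Type) [Field k] (G : Type) [Group G] where
  ψ : MonoidAlgebra k G ≃+ MonoidAlgebra k G
  τ : k ≃+* k
  smul : ∀ c x, ψ (c • x) = τ c • ψ x
  conj : ∀ g x, ψ (cj g x) = cj g (ψ x)
  mul : ∀ x y, (∀ z, z * x = x * z) → ψ (x * y) = ψ x * ψ y

theorem central_iff_cj (x : MonoidAlgebra k G) : (∀ z, z * x = x * z) ↔ ∀ g, cj g x = x :=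
  ⟨fun h g => cj_central h g, central_of_cj⟩

theorem Sy.central (S : Sy k G) (x : MonoidAlgebra k G) :
    (∀ z, z * x = x * z) ↔ (∀ z, z * S.ψ x = S.ψ x * z) := by
  rw [central_iff_cj, central_iff_cj]
  constructor
  · intro h g
    rw [← S.conj, h]
  · intro h g
    apply S.ψ.injective
    rw [S.conj, h]

theorem Sy.block (S : Sy k G) {e : MonoidAlgebra k G} (he : IsBlock e) : IsBlock (S.ψ e) := by
  obtain ⟨h1, h2, h3, h4⟩ := he
  refine ⟨?_, (S.central e).1 h2, ?_, ?_⟩
  · show S.ψ e * S.ψ e = S.ψ e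
    rw [← S.mul _ _ h2, h1]
  · intro h0
    apply h3
    apply S.ψ.injective
    rw [h0, map_zero]
  · intro f hf hfc
    obtain ⟨f', rfl⟩ := S.ψ.surjective f
    have hc' := (S.central f').2 hfc
    have hid : IsIdempotentElem f' := by
      apply S.ψ.injective
      rw [S.mul _ _ hc', hf]
    rcases h4 f' hid hc' with h5 | h5
    · left
      rw [← S.mul _ _ hc', h5, map_zero]
    · right
      rw [← S.mul _ _ hc', h5]

theorem Sy.dim (S : Sy k G) {e : MonoidAlgebra k G} {d : ℕ} (h : Dim e d) :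
    Dim (S.ψ e) d := by
  obtain ⟨b, hb, hb2⟩ := h
  refine ⟨fun i => S.ψ (b i), ?_, ?_⟩
  · rw [Fintype.linearIndependent_iff] at hb ⊢
    intro c hc i
    have h1 : S.ψ (∑ i, S.τ.symm (c i) • b i) = 0 := by
      rw [map_sum]
      simp only [S.smul, RingEquiv.apply_symm_apply]
      exact hc
    have h2 : ∑ i, S.τ.symm (c i) • b i = 0 := by
      apply S.ψ.injective
      rw [h1, map_zero]
    have h3 := hb _ h2 i
    simpa using h3
  · intro i
    refine ⟨(S.central _).1 (hb2 i).1, ?_⟩
    show S.ψ (b i) * S.ψ e = S.ψ (b i)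
    rw [← S.mul _ _ (hb2 i).1, (hb2 i).2]

theorem Sy.trace [Finite G] (S : Sy k G) {e : MonoidAlgebra k G} {D : Subgroup G} (h : IsTrace D e) :
    IsTrace D (S.ψ e) := by
  obtain ⟨a, ha, hae⟩ := h
  have : Fintype (G ⧸ D) := Fintype.ofFinite _
  have h1 : ∀ q ∈ D, cj q a = a := by
    intro q hq
    unfold cj
    rw [ha q hq, mul_assoc, of_mul_of_inv, mul_one]
  refine ⟨S.ψ a, ?_, ?_⟩
  · intro q hq
    have h2 : cj q (S.ψ a) = S.ψ a := by rw [← S.conj, h1 q hq]
    unfold cj at h2
    conv_rhs => rw [← h2]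
    rw [mul_assoc, of_inv_mul_of, mul_one]
  · rw [hae, finsum_eq_sum_of_fintype, finsum_eq_sum_of_fintype, map_sum]
    apply Finset.sum_congr rfl
    intro x _
    exact S.conj _ _

/-- the expansion of an element -/
theorem expand [Fintype G] (x : MonoidAlgebra k G) :
    x = ∑ g : G, x.coeff g • MonoidAlgebra.of k G g := by
  ext u
  simp [MonoidAlgebra.coeff_sum, MonoidAlgebra.of]

/-- The Frobenius map on the coefficients. -/
noncomputable def frS (p : ℕ) [Fact p.Prime] [CharP k p] [PerfectRing k p] (G : Type) [Group G] : Sy k G where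
  ψ := MonoidAlgebra.mapAddEquiv G (frobeniusEquiv k p).toAddEquiv
  τ := frobeniusEquiv k p
  smul := by
    intro c x
    ext g
    simp
  conj := by
    intro g x
    ext u
    rw [cj, cj, coeff_conj, MonoidAlgebra.coeff_mapAddEquiv, MonoidAlgebra.coeff_mapAddEquiv,
      coeff_conj]
  mul := by
    intro x y _
    have : ∀ z : MonoidAlgebra k G, MonoidAlgebra.mapAddEquiv G (frobeniusEquiv k p).toAddEquiv z =
        MonoidAlgebra.mapRingHom G (frobenius k p) z := by
      intro z
      ext u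
      simp
    rw [this, this, this, map_mul]

/-- Inversion of the group elements. -/
noncomputable def ivS [Finite G] : Sy k G where
  ψ := 
    { toFun := fun x => MonoidAlgebra.ofCoeff (Finsupp.equivFunOnFinite.symm fun g => x.coeff g⁻¹)
      invFun := fun x => MonoidAlgebra.ofCoeff (Finsupp.equivFunOnFinite.symm fun g => x.coeff g⁻¹)
      left_inv := by
        intro x
        ext g
        simp
      right_inv := by
        intro x
        ext g
        simp
      map_add' := by
        intro x y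
        ext g
        simp }
  τ := RingEquiv.refl k
  smul := by
    intro c x
    ext g
    simp
  conj := by
    intro g x
    ext u
    show (MonoidAlgebra.of k G g * x * MonoidAlgebra.of k G g⁻¹).coeff u⁻¹ =
      (MonoidAlgebra.of k G g * _ * MonoidAlgebra.of k G g⁻¹).coeff u
    rw [coeff_conj, coeff_conj]
    show _ = x.coeff (g⁻¹ * u * g)⁻¹
    congr 1
    group
  mul := by
    intro x y hx
    have : Fintype G := Fintype.ofFinite G
    ext u
    show (x * y).coeff u⁻¹ = _
    rw [← hx, mul_coeff, mul_coeff]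
    show _ = ∑ h : G, x.coeff h⁻¹ * y.coeff (h⁻¹ * u)⁻¹
    apply Fintype.sum_equiv (Equiv.mulLeft u)
    intro h
    rw [mul_comm]
    congr 2
    · simp
    · simp

theorem fr_coeff (p : ℕ) [Fact p.Prime] [CharP k p] [PerfectRing k p] (x : MonoidAlgebra k G) (g : G) :
    ((frS p G).ψ x).coeff g = x.coeff g ^ p := by
  show (MonoidAlgebra.mapAddEquiv G (frobeniusEquiv k p).toAddEquiv x).coeff g = _
  rw [MonoidAlgebra.coeff_mapAddEquiv]
  rfl

theorem iv_coeff [Finite G] (x : MonoidAlgebra k G) (g : G) :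
    ((ivS (k := k) (G := G)).ψ x).coeff g = x.coeff g⁻¹ := rfl

theorem fr_of (p : ℕ) [Fact p.Prime] [CharP k p] [PerfectRing k p] (g : G) :
    (frS p G).ψ (MonoidAlgebra.of k G g) = MonoidAlgebra.of k G g := by
  show MonoidAlgebra.mapAddEquiv G (frobeniusEquiv k p).toAddEquiv (MonoidAlgebra.single g 1) = _
  rw [MonoidAlgebra.mapAddEquiv_single]
  simp [MonoidAlgebra.of]

theorem iv_of [Finite G] (g : G) :
    (ivS (k := k) (G := G)).ψ (MonoidAlgebra.of k G g) = MonoidAlgebra.of k G g⁻¹ := by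
  classical
  ext u
  rw [iv_coeff]
  show (Finsupp.single g (1 : k)) u⁻¹ = (Finsupp.single g⁻¹ (1 : k)) u
  rw [Finsupp.single_apply, Finsupp.single_apply]
  simp [inv_eq_iff_eq_inv]

theorem fr_iv (p : ℕ) [Fact p.Prime] [CharP k p] [PerfectRing k p] [Finite G] (x : MonoidAlgebra k G) :
    (frS p G).ψ (ivS.ψ x) = ivS.ψ ((frS p G).ψ x) := by
  ext u
  rw [fr_coeff, iv_coeff, iv_coeff, fr_coeff]

theorem iv_iv [Finite G] (x : MonoidAlgebra k G) : ivS.ψ (ivS.ψ x) = x := by
  ext u
  rw [iv_coeff, iv_coeff, inv_inv]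

theorem fr_T (p : ℕ) [Fact p.Prime] [CharP k p] [PerfectRing k p] {ι : Type} [Fintype ι] [Finite G]
    (c : ι → MonoidAlgebra k G) : (frS p (ι → G)).ψ (T c) = T (fun x => (frS p G).ψ (c x)) := by
  ext u
  rw [fr_coeff, T_coeff, T_coeff, ← Finset.prod_pow]
  simp only [fr_coeff]

theorem iv_T {ι : Type} [Fintype ι] [Finite G]
    (c : ι → MonoidAlgebra k G) : ivS.ψ (T c) = T (fun x => ivS.ψ (c x)) := by
  ext u
  rw [iv_coeff, T_coeff, T_coeff]
  rfl

theorem fr_J (p : ℕ) [Fact p.Prime] [CharP k p] [PerfectRing k p] {N H : Type} [Group N] [Group H] [Finite N]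
    (j : N →* H) (x : MonoidAlgebra k N) : (frS p H).ψ (J k j x) = J k j ((frS p N).ψ x) := by
  have : Fintype N := Fintype.ofFinite N
  rw [expand x]
  simp only [map_sum, map_smul, (frS p H).smul, (frS p N).smul, J_of, fr_of]
  rfl

theorem iv_J {N H : Type} [Group N] [Group H] [Finite N] [Finite H]
    (j : N →* H) (x : MonoidAlgebra k N) : ivS.ψ (J k j x) = J k j (ivS.ψ x) := by
  have : Fintype N := Fintype.ofFinite N
  rw [expand x]
  simp only [map_sum, map_smul, Sy.smul, J_of, iv_of, map_inv]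
  rfl

variable {Q : Type} [CommGroup Q] [Fintype Q]

theorem fr_W (p : ℕ) [Fact p.Prime] [CharP k p] [PerfectRing k p] [Finite G]
    (c : Q → MonoidAlgebra k G) : (frS p _).ψ (W c) = W (fun x => (frS p G).ψ (c x)) := by
  rw [W_eq, W_eq, map_sum]
  simp only [fr_J, fr_T]

theorem iv_W [Finite G]
    (c : Q → MonoidAlgebra k G) : ivS.ψ (W c) = W (fun x => ivS.ψ (c x)) := by
  rw [W_eq, W_eq, map_sum]
  simp only [iv_J, iv_T]

/-- the number of blocks is finite -/
theorem finite_blocks (k G : Type) [Field k] [Group G] [Finite G] :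
    Finite {e : MonoidAlgebra k G // IsBlock e} := by
  classical
  have hlin : LinearIndependent k (fun e : {e : MonoidAlgebra k G // IsBlock e} => e.1) := by
    rw [linearIndependent_iff']
    intro s c hc e he
    have h1 := congrArg (· * e.1) hc
    simp only [Finset.sum_mul, zero_mul, smul_mul_assoc] at h1
    rw [Finset.sum_eq_single e] at h1
    · rw [e.2.1] at h1
      exact (smul_eq_zero.1 h1).resolve_right e.2.2.2.1
    · intro e' _ hne
      rw [e'.2.orth e.2 (fun h => hne (Subtype.ext h)), smul_zero]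
    · intro h
      exact absurd he h
  exact hlin.finite_of_isNoetherian

end Pool.Agent.Q288.KB
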