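import Mathlib

set_option autoImplicit false

open Finset MonoidAlgebra

namespace Pool.Agent.Q288.KB

variable {k : Type} [Field k]

theorem mul_coeff {G : Type} [Group G] [Fintype G] (a b : MonoidAlgebra k G) (u : G) :
    (a * b).coeff u = ∑ h, a.coeff h * b.coeff (h⁻¹ * u) := by
  rw [MonoidAlgebra.coeff_mul_apply_left, Finsupp.sum_fintype _ _ (by simp)]

section
variable {ι : Type} [Fintype ι] {G : Type} [Group G] [Finite G]

/-- the tensor product of a family of elements of the group algebra -/
noncomputable def T (a : ι → MonoidAlgebra k G) : MonoidAlgebra k (ι → G) :=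
  MonoidAlgebra.ofCoeff (Finsupp.equivFunOnFinite.symm fun g => ∏ x, (a x).coeff (g x))

theorem T_coeff (a : ι → MonoidAlgebra k G) (g : ι → G) :
    (T a).coeff g = ∏ x, (a x).coeff (g x) := rfl

theorem T_mul (a b : ι → MonoidAlgebra k G) : T a * T b = T (a * b) := by
  classical
  have : Fintype G := Fintype.ofFinite G
  ext u
  rw [mul_coeff, T_coeff]
  have h : ∀ x, ((a * b) x).coeff (u x) = ∑ h, (a x).coeff h * (b x).coeff (h⁻¹ * u x) := by
    intro x
    rw [Pi.mul_apply, mul_coeff]
  simp only [h]
  rw [Finset.prod_univ_sum]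
  simp only [T_coeff, Fintype.piFinset_univ, Finset.prod_mul_distrib, Pi.mul_apply, Pi.inv_apply]

variable (k ι G) in
/-- the tensor product as a multilinear map -/
noncomputable def Tm : MultilinearMap k (fun _ : ι => MonoidAlgebra k G)
    (MonoidAlgebra k (ι → G)) where
  toFun := T
  map_update_add' := by
    intro _ m i x y
    ext g
    rw [MonoidAlgebra.coeff_add, Finsupp.add_apply, T_coeff, T_coeff, T_coeff]
    have h : ∀ z : MonoidAlgebra k G, (∏ j, (Function.update m i z j).coeff (g j)) =
        z.coeff (g i) * ∏ j ∈ univ \ {i}, (m j).coeff (g j) := by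
      intro z
      have h1 : ∀ j, (Function.update m i z j).coeff (g j) =
          Function.update (fun j => (m j).coeff (g j)) i (z.coeff (g i)) j := by
        intro j
        by_cases hj : j = i
        · subst hj
          simp
        · simp [Function.update_of_ne hj]
      simp only [h1]
      rw [Finset.prod_update_of_mem (Finset.mem_univ i)]
    rw [h, h, h, MonoidAlgebra.coeff_add, Finsupp.add_apply]
    ring
  map_update_smul' := by
    intro _ m i c x
    ext g
    rw [MonoidAlgebra.coeff_smul_apply, T_coeff, T_coeff]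
    have h : ∀ z : MonoidAlgebra k G, (∏ j, (Function.update m i z j).coeff (g j)) =
        z.coeff (g i) * ∏ j ∈ univ \ {i}, (m j).coeff (g j) := by
      intro z
      have h1 : ∀ j, (Function.update m i z j).coeff (g j) =
          Function.update (fun j => (m j).coeff (g j)) i (z.coeff (g i)) j := by
        intro j
        by_cases hj : j = i
        · subst hj
          simp
        · simp [Function.update_of_ne hj]
      simp only [h1]
      rw [Finset.prod_update_of_mem (Finset.mem_univ i)]
    rw [h, h, MonoidAlgebra.coeff_smul_apply]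
    simp only [smul_eq_mul]
    ring

theorem Tm_apply (a : ι → MonoidAlgebra k G) : Tm k ι G a = T a := rfl

theorem T_single (g : ι → G) (r : ι → k) :
    T (fun x => MonoidAlgebra.single (g x) (r x)) = MonoidAlgebra.single g (∏ x, r x) := by
  classical
  ext u
  rw [T_coeff, MonoidAlgebra.coeff_single]
  by_cases h : g = u
  · subst h
    simp
  · rw [Finsupp.single_eq_of_ne (Ne.symm h)]
    obtain ⟨x, hx⟩ := Function.ne_iff.mp h
    apply Finset.prod_eq_zero (Finset.mem_univ x)
    rw [MonoidAlgebra.coeff_single, Finsupp.single_eq_of_ne (Ne.symm hx)]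

theorem T_of (g : ι → G) : MonoidAlgebra.of k (ι → G) g = T (fun x => MonoidAlgebra.of k G (g x)) := by
  have := T_single (k := k) g (fun _ => 1)
  simp only [Finset.prod_const_one] at this
  exact this.symm

theorem T_zero {a : ι → MonoidAlgebra k G} {x : ι} (h : a x = 0) : T a = 0 :=
  (Tm k ι G).map_coord_zero x h

theorem T_smul (c : ι → k) (a : ι → MonoidAlgebra k G) : T (fun x => c x • a x) = (∏ x, c x) • T a :=
  (Tm k ι G).map_smul_univ c a

theorem T_sum [DecidableEq ι] {α : ι → Type} [∀ x, Fintype (α x)] (a : ∀ x, α x → MonoidAlgebra k G) :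
    T (fun x => ∑ i, a x i) = ∑ i : ∀ x, α x, T (fun x => a x (i x)) := by
  exact (Tm k ι G).map_sum a

theorem T_pow (a : ι → MonoidAlgebra k G) (n : ℕ) (hn : n ≠ 0) : T a ^ n = T (a ^ n) := by
  induction n with
  | zero => exact absurd rfl hn
  | succ m ih =>
    by_cases hm : m = 0
    · subst hm
      simp
    · rw [pow_succ, ih hm, T_mul, pow_succ]

/-- centrality -/
theorem central_iff {G : Type} [Group G] (a : MonoidAlgebra k G) :
    (∀ x, x * a = a * x) ↔ ∀ g : G, MonoidAlgebra.of k G g * a = a * MonoidAlgebra.of k G g := by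
  constructor
  · intro h g
    exact h _
  · intro h x
    induction x using MonoidAlgebra.induction_on with
    | of g => exact h g
    | add f g hf hg => rw [add_mul, mul_add, hf, hg]
    | smul r f hf => rw [smul_mul_assoc, mul_smul_comm, hf]

theorem T_central {a : ι → MonoidAlgebra k G} (h : ∀ i, ∀ x, x * a i = a i * x) :
    ∀ x, x * T a = T a * x := by
  rw [central_iff]
  intro g
  rw [T_of, T_mul, T_mul]
  congr 1
  funext i
  exact h i _

theorem T_ne_zero {a : ι → MonoidAlgebra k G} (h : ∀ i, a i ≠ 0) : T a ≠ 0 := by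
  have h1 : ∀ i, ∃ g, (a i).coeff g ≠ 0 := by
    intro i
    by_contra hcon
    push Not at hcon
    exact h i (by ext g; simpa using hcon g)
  choose g hg using h1
  intro h0
  have h2 : (T a).coeff g = 0 := by rw [h0]; simp
  rw [T_coeff, Finset.prod_eq_zero_iff] at h2
  obtain ⟨i, _, hi⟩ := h2
  exact hg i hi

/-- the pairing of the tensor product with linear functionals -/
theorem T_pair (φ : ι → MonoidAlgebra k G →ₗ[k] k) :
    ∃ Φ : MonoidAlgebra k (ι → G) →ₗ[k] k, ∀ a : ι → MonoidAlgebra k G, Φ (T a) = ∏ x, φ x (a x) := by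
  classical
  have : Fintype G := Fintype.ofFinite G
  refine ⟨{ toFun := fun f => ∑ g : ι → G, f.coeff g * ∏ x, φ x (MonoidAlgebra.single (g x) 1)
            map_add' := ?_
            map_smul' := ?_ }, ?_⟩
  · intro x y
    simp only [MonoidAlgebra.coeff_add, Finsupp.add_apply, add_mul, Finset.sum_add_distrib]
  · intro c x
    simp only [MonoidAlgebra.coeff_smul_apply, smul_eq_mul, RingHom.id_apply, Finset.mul_sum, mul_assoc]
  · intro a
    show ∑ g : ι → G, (T a).coeff g * ∏ x, φ x (MonoidAlgebra.single (g x) 1) = _
    have h : ∀ x, φ x (a x) = ∑ g : G, (a x).coeff g * φ x (MonoidAlgebra.single g 1) := by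
      intro x
      have h1 : a x = ∑ g : G, (a x).coeff g • MonoidAlgebra.single g (1 : k) := by
        ext u
        simp [MonoidAlgebra.coeff_sum]
      conv_lhs => rw [h1]
      rw [map_sum]
      simp only [map_smul, smul_eq_mul]
    simp only [h]
    rw [Finset.prod_univ_sum]
    simp only [T_coeff, Fintype.piFinset_univ, Finset.prod_mul_distrib]

end

end Pool.Agent.Q288.KB
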