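import Pool.Agent.Q288.KB.Prod

set_option autoImplicit false

open Finset MonoidAlgebra

namespace Pool.Agent.Q288.KB

variable {k : Type} [Field k]

section conj
variable {G : Type} [Group G]

/-- conjugation -/
noncomputable def cj (g : G) (x : MonoidAlgebra k G) : MonoidAlgebra k G :=
  MonoidAlgebra.of k G g * x * MonoidAlgebra.of k G g⁻¹

theorem cj_mul (g : G) (x y : MonoidAlgebra k G) : cj g (x * y) = cj g x * cj g y := by
  unfold cj
  calc MonoidAlgebra.of k G g * (x * y) * MonoidAlgebra.of k G g⁻¹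
      = MonoidAlgebra.of k G g * x * 1 * (y * MonoidAlgebra.of k G g⁻¹) := by
        simp only [mul_assoc, mul_one]
    _ = _ := by
        rw [← of_inv_mul_of g]
        simp only [mul_assoc]

theorem cj_cj (g h : G) (x : MonoidAlgebra k G) : cj (g * h) x = cj g (cj h x) := by
  unfold cj
  rw [map_mul, mul_inv_rev, map_mul]
  simp only [mul_assoc]

theorem cj_one (x : MonoidAlgebra k G) : cj 1 x = x := by
  unfold cj
  rw [inv_one, map_one, one_mul, mul_one]

theorem cj_central {x : MonoidAlgebra k G} (hx : ∀ y, y * x = x * y) (g : G) : cj g x = x := by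
  unfold cj
  rw [hx, mul_assoc, of_mul_of_inv, mul_one]

theorem cj_zero (g : G) : cj g (0 : MonoidAlgebra k G) = 0 := by
  unfold cj
  simp

theorem cj_sum {α : Type} (s : Finset α) (g : G) (x : α → MonoidAlgebra k G) :
    cj g (∑ i ∈ s, x i) = ∑ i ∈ s, cj g (x i) := by
  unfold cj
  rw [Finset.mul_sum, Finset.sum_mul]

theorem cj_smul (g : G) (c : k) (x : MonoidAlgebra k G) : cj g (c • x) = c • cj g x := by
  unfold cj
  rw [mul_smul_comm, smul_mul_assoc]

theorem cj_add (g : G) (x y : MonoidAlgebra k G) : cj g (x + y) = cj g x + cj g y := by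
  unfold cj
  rw [mul_add, add_mul]

theorem central_of_cj {x : MonoidAlgebra k G} (h : ∀ g, cj g x = x) : ∀ y, y * x = x * y := by
  rw [central_iff]
  intro g
  have h1 := h g
  unfold cj at h1
  conv_rhs => rw [← h1]
  rw [mul_assoc, of_inv_mul_of, mul_one]

theorem trace_eq [Finite G] {D : Subgroup G} {a : MonoidAlgebra k G}
    (ha : ∀ q ∈ D, MonoidAlgebra.of k G q * a = a * MonoidAlgebra.of k G q)
    {I : Type} [Fintype I] (t : I → G) (ht : Function.Bijective fun i => (t i : G ⧸ D)) :
    ∑ᶠ x : G ⧸ D, MonoidAlgebra.of k G (Quotient.out x) * a *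
          MonoidAlgebra.of k G (Quotient.out x)⁻¹ = ∑ i, cj (t i) a := by
  classical
  have : Fintype (G ⧸ D) := Fintype.ofFinite _
  rw [finsum_eq_sum_of_fintype]
  symm
  apply Fintype.sum_equiv (Equiv.ofBijective _ ht)
  intro i
  obtain ⟨d, hd⟩ := QuotientGroup.mk_out_eq_mul D (t i)
  show cj (t i) a = cj (Quotient.out ((t i : G) : G ⧸ D)) a
  rw [hd, cj_cj]
  congr 1
  unfold cj
  rw [ha _ d.2, mul_assoc, of_mul_of_inv, mul_one]

end conj

section prod
variable {G : Type} [Group G] {ι : Type} [Fintype ι]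

theorem cj_T [Finite G] (g : ι → G) (a : ι → MonoidAlgebra k G) :
    cj g (T a) = T (fun i => cj (g i) (a i)) := by
  unfold cj
  rw [T_of, T_of, T_mul, T_mul]
  rfl

theorem T_trace [Finite G] {e : ι → MonoidAlgebra k G} {D : ι → Subgroup G}
    (h : ∀ i, IsTrace (D i) (e i)) : IsTrace (Subgroup.pi Set.univ D) (T e) := by
  classical
  choose a ha hae using h
  have hfix : ∀ q ∈ Subgroup.pi Set.univ D, MonoidAlgebra.of k (ι → G) q * T a =
      T a * MonoidAlgebra.of k (ι → G) q := by
    intro q hq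
    rw [T_of, T_mul, T_mul]
    congr 1
    funext i
    exact ha i (q i) (hq i (Set.mem_univ i))
  refine ⟨T a, hfix, ?_⟩
  have hfin : ∀ i, Fintype (G ⧸ D i) := fun i => Fintype.ofFinite _
  rw [trace_eq hfix (fun y : ∀ i, G ⧸ D i => fun i => Quotient.out (y i))]
  · simp only [cj_T]
    rw [← T_sum (fun i (y : G ⧸ D i) => cj (Quotient.out y) (a i))]
    congr 1
    funext i
    rw [hae i, finsum_eq_sum_of_fintype]
    rfl
  · constructor
    · intro y y' hyy
      have h1 := QuotientGroup.eq.1 hyy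
      funext i
      have h2 := h1 i (Set.mem_univ i)
      have h3 : ((Quotient.out (y i) : G) : G ⧸ D i) = ((Quotient.out (y' i) : G) : G ⧸ D i) :=
        QuotientGroup.eq.2 h2
      rw [QuotientGroup.out_eq', QuotientGroup.out_eq'] at h3
      exact h3
    · intro x
      obtain ⟨g, rfl⟩ := QuotientGroup.mk_surjective x
      refine ⟨fun i => ((g i : G) : G ⧸ D i), ?_⟩
      apply QuotientGroup.eq.2
      intro i _
      obtain ⟨d, hd⟩ := QuotientGroup.mk_out_eq_mul (D i) (g i)
      show (Quotient.out ((g i : G) : G ⧸ D i))⁻¹ * g i ∈ D i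
      rw [hd]
      simp

theorem card_pi_subgroup (D : ι → Subgroup G) :
    Nat.card (Subgroup.pi Set.univ D) = ∏ i, Nat.card (D i) := by
  rw [← Nat.card_pi]
  apply Nat.card_congr
  refine ⟨fun x i => ⟨x.1 i, x.2 i (Set.mem_univ i)⟩, fun y => ⟨fun i => (y i).1, fun i _ => (y i).2⟩,
    fun x => rfl, fun y => rfl⟩

end prod

end Pool.Agent.Q288.KB
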