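import Pool.Agent.Q288.KB.Ind

set_option autoImplicit false

open Finset MonoidAlgebra

namespace Pool.Agent.Q288.KB

variable {k : Type} [Field k] {G Q : Type} [Group G] [CommGroup Q]

theorem IsBlock.orth {G : Type} [Group G] {e e' : MonoidAlgebra k G} (he : IsBlock e) (he' : IsBlock e') (h : e ≠ e') :
    e * e' = 0 := by
  rcases he.2.2.2 e' he'.1 he'.2.1 with h1 | h1
  · rw [← he.2.1, h1]
  · rcases he'.2.2.2 e he.1 he.2.1 with h2 | h2
    · exact h2
    · exfalso
      apply h
      rw [← h1, he.2.1, h2]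

/-- the base group of the regular wreath product -/
def base (G Q : Type) [Group G] [CommGroup Q] : (Q → G) →* RegularWreathProduct G Q where
  toFun g := ⟨g, 1⟩
  map_one' := rfl
  map_mul' := by
    intro a b
    ext
    · simp
    · simp

/-- the data of the regular wreath product -/
def wsys (G Q : Type) [Group G] [CommGroup Q] : Sys (Q → G) (RegularWreathProduct G Q) Q where
  j := base G Q
  hj := by
    intro a b h
    exact congrArg RegularWreathProduct.left h
  hnorm := by
    intro h n
    refine ⟨(h * base G Q n * h⁻¹).left, ?_⟩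
    ext
    · rfl
    · simp [base]
  t q := ⟨1, q⟩
  ex := by
    intro h
    refine ⟨h.right, fun x => h.left (h.right * x), ?_⟩
    ext
    · simp [base]
    · simp [base]
  un := by
    intro q q' n n' h
    have := congrArg RegularWreathProduct.right h
    simpa [base] using this

variable [Fintype Q]

/-- the block of the wreath product defined by a family of blocks -/
noncomputable def W [Finite G] (c : Q → MonoidAlgebra k G) : MonoidAlgebra k (RegularWreathProduct G Q) :=
  (wsys G Q).E (T c)

theorem T_expand {ι : Type} [Fintype ι] [DecidableEq ι] [Fintype G] (c : ι → MonoidAlgebra k G) :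
    T c = ∑ g : ι → G, (∏ x, (c x).coeff (g x)) • MonoidAlgebra.of k (ι → G) g := by
  classical
  ext u
  simp [MonoidAlgebra.coeff_sum, MonoidAlgebra.of, T_coeff, Finsupp.single_apply]

theorem cj_base [Finite G] (q : Q) (c : Q → MonoidAlgebra k G) :
    cj ((wsys G Q).t q) (J k (wsys G Q).j (T c)) = J k (wsys G Q).j (T fun x => c (q⁻¹ * x)) := by
  classical
  have : Fintype G := Fintype.ofFinite G
  rw [T_expand, T_expand, map_sum, map_sum, cj_sum]
  apply Fintype.sum_equiv (Equiv.piCongrLeft' (fun _ => G) (Equiv.mulLeft q))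
  intro g
  rw [map_smul, map_smul, J_of, J_of, cj_smul]
  have h1 : ∀ x : Q, (Equiv.piCongrLeft' (fun _ => G) (Equiv.mulLeft q)) g x = g (q⁻¹ * x) := by
    intro x
    simp
  congr 1
  · simp only [h1]
    symm
    exact Fintype.prod_equiv (Equiv.mulLeft q⁻¹) (fun x => (c (q⁻¹ * x)).coeff (g (q⁻¹ * x)))
      (fun x => (c x).coeff (g x)) (fun x => by simp)
  · unfold cj
    rw [← map_mul, ← map_mul]
    congr 1
    ext x
    · simp [wsys, base, h1]
    · simp [wsys, base]

theorem W_eq [Finite G] (c : Q → MonoidAlgebra k G) :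
    W c = ∑ q : Q, J k (wsys G Q).j (T fun x => c (q⁻¹ * x)) := by
  unfold W Sys.E
  simp only [cj_base]

theorem orth_base [Finite G] {c : Q → MonoidAlgebra k G} (hc : ∀ x, IsBlock (c x))
    (hinj : Function.Injective c) : (wsys G Q).Orth (T c) := by
  intro h hh
  obtain ⟨q, n, hq⟩ := (wsys G Q).ex h
  rw [(wsys G Q).cj_t (T_central fun i => (hc i).2.1) hq, cj_base, ← map_mul, T_mul]
  have hq1 : q ≠ 1 := by
    rintro rfl
    apply hh
    refine ⟨n, ?_⟩
    rw [hq]
    have : (wsys G Q).t 1 = 1 := rfl
    rw [this, one_mul]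
  have h1 : c (q⁻¹ * 1) * c 1 = 0 := by
    apply (hc _).orth (hc _)
    intro h2
    have h3 := hinj h2
    apply hq1
    simpa using h3
  rw [T_zero (x := 1) h1, map_zero]

theorem W_block [IsAlgClosed k] [Finite G] {c : Q → MonoidAlgebra k G} (hc : ∀ x, IsBlock (c x))
    (hinj : Function.Injective c) : IsBlock (W c) :=
  Sys.E_block (orth_base hc hinj) (T_block hc)

theorem W_dim [IsAlgClosed k] [Finite G] {c : Q → MonoidAlgebra k G} (hc : ∀ x, IsBlock (c x))
    (hinj : Function.Injective c) {d : ℕ} (hd : ∀ x, Dim (c x) d) :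
    Dim (W c) (d ^ Fintype.card Q) := by
  have h := T_dim hd
  rw [Finset.prod_const, Finset.card_univ] at h
  exact Sys.E_dim (orth_base hc hinj) (T_block hc).2.1 (T_block hc).1 h

theorem W_trace [Finite G] {c : Q → MonoidAlgebra k G} {n : ℕ}
    (hn : ∀ x, ∃ D, IsTrace D (c x) ∧ Nat.card D = n) :
    ∃ D, IsTrace D (W c) ∧ Nat.card D = n ^ Fintype.card Q := by
  choose D hD hn using hn
  refine ⟨_, Sys.E_trace (T_trace hD), ?_⟩
  rw [Sys.card_map, card_pi_subgroup]
  simp [hn]

/-- shifting the family -/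
theorem W_shift [Finite G] (c : Q → MonoidAlgebra k G) (s : Q) : W (fun x => c (s * x)) = W c := by
  rw [W_eq, W_eq]
  apply Fintype.sum_equiv (Equiv.mulRight s⁻¹)
  intro q
  congr 2
  funext x
  congr 1
  simp [mul_comm, mul_left_comm]

end Pool.Agent.Q288.KB
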